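import Pool.Agent.Helper40_PV3.AR
import Pool.Agent.Helper11_PV3.An
import Pool.Agent.Helper27_PV3.Der
import Pool.Agent.Helper21_PV3.Inn
import Pool.Agent.Helper60_PV3.Rel
import Pool.Agent.Helper4_PV3.Bdl
import Pool.Agent.Helper85_PVD.WPS
import Pool.Agent.Helper72_PVD.WMO
import Pool.Agent.Helper85_PVD.WLC
import Pool.Agent.Helper47_PVD.Wdi
import Pool.Agent.Helper47_PVD.Wcd
import Pool.Agent.Helper84_PVD.WSG
import Pool.Agent.Helper32_PVD.WIN
import Pool.Agent.Helper32_PVD.KAP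
import Pool.Agent.Helper24_PVD.PHI
import Pool.Agent.Helper12_PVD.NRM
import Pool.Agent.Helper12_PVD.PLC
import Pool.Agent.Helper25_PVD.SYM
import Pool.Agent.Helper36_PVD.CHV
import Pool.Agent.Helper30_PVD.FAE
import Pool.Agent.Helper25_PVD.MOM
import Pool.Agent.Helper24_PVD.SHR
import Pool.Agent.Helper48_PVD.FLT
import Pool.Agent.Helper25_PVD.CVR
import Pool.Agent.Helper88_PVD.Hsm
import Pool.Agent.Helper13_PVD.PRF
import Pool.Agent.Helper84_PVD.SMD
import Pool.Agent.Helper3_PVD.FEQ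
import Pool.Agent.Helper17_PVD.ASG

/-! MP_e25c73_gt: assembly of block G (geometry). -/

set_option autoImplicit false

namespace PVD

theorem wps' : WPSStmt := H85.wps
theorem wmo' : WMOStmt := H72.wmo wps'
theorem wco' : WCOStmt := H72.wco wmo'
theorem wlc' : WLCStmt := H85.wlc
theorem kap' : KAPStmt := H32.kap'
theorem win' : WINStmt := H32.win
theorem phi' : PHIStmt := H24.phi
theorem nrm' : NRMStmt := H12.nrm
theorem plc' : PLCStmt := H12.plc nrm' PV3.H4.bdl
theorem sym' : SYMStmt := H25.sym nrm'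
theorem chv' : CHVStmt := H36.chv kap' sym' wps'
theorem ar' : PV3.ARStmt := PV3.H40.ar_stmt
theorem an' : PV3.ANStmt := PV3.H11.an
theorem der' : PV3.DERStmt := PV3.H27.der ar' an'
theorem inn' : PV3.INNStmt := PV3.H21.inn ar'
theorem wdi' : WDIStmt := H47.wdi phi' nrm' plc' chv' wlc' wps' der' inn'
theorem wcd' : WCDStmt := H47.wcd wdi' wco' wlc' wps'
theorem wsg' : WSGStmt := H84.wsg wdi' wlc' wmo' wps'
theorem fae' : FAEStmt := H30.fae chv' plc' nrm' sym' wdi' der'
theorem mom' : MOMStmt := H25.mom nrm' plc'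
theorem shr' : SHRStmt := H24.shr
theorem flt' : FLTStmt := H48.flt shr' ar'
theorem cvr' : CVRStmt := H25.cvr flt' an'
theorem hsm' : HSMStmt := H88.hsm
theorem prf' : PRFStmt := H13.prf cvr' flt'
theorem smd' : SMDStmt := H84.smd prf' hsm'
theorem feq' : FEQStmt := H3.feq an'

/-- Block G. -/
theorem neg_of_fin : FINStmt → NEGStmt := H17.asg phi' nrm' plc' fae' mom' smd' feq'

end PVD
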