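import Pool.Agent.PVD.AsmG
import Pool.Agent.PVD.AsmL
import Pool.Agent.Helper3_PVD.MB1
import Pool.Agent.Helper17_PVD.MB2
import Pool.Agent.Helper60_PVD.MB3
import Pool.Agent.Helper77_PVD.DUA
import Pool.Agent.Helper45_PVD.HPO
import Pool.Agent.Helper17_PVD.ALC
import Pool.Agent.Helper27_PVD.PMC
import Pool.Agent.Helper90_PVD.MCT
import Pool.Agent.Helper9_PVD.MLI
import Pool.Agent.Helper72_PVD.MSG
import Pool.Agent.Helper47_PVD.Mev
import Pool.Agent.Helper65_PVD.MZR
import Pool.Agent.Helper20_PVD.MFN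
import Pool.Agent.Helper10_PVD.ONE
import Pool.Agent.Helper52_PVD.NVAR
import Pool.Agent.Helper92_PVD.CHB
import Pool.Agent.Helper69_PVD.NUba
import Pool.Agent.Helper47_PVD.Lba
import Pool.Agent.Helper56_PVD.RSG
import Pool.Agent.Helper69_PVD.NRlg
import Pool.Agent.Helper90_PVD.BLF
import Pool.Agent.Helper18_PVD.RS
import Pool.Agent.Helper13_PVD.RS3
import Pool.Agent.Helper15_PVD.HOM
import Pool.Agent.Helper20_PVD.SUP
import Pool.Agent.Helper53_PVD.SLO
import Pool.Agent.Helper76_PVD.SSA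
import Pool.Agent.Helper91_PVD.DIC
import Pool.Agent.Helper13_PVD.SSC

/-! MP_e25c73_gt: assembly of block M (finite dimension) and of the whole proof. -/

set_option autoImplicit false

namespace Pool.Agent.PVD.M

theorem mb1' : Mb1Stmt := H3.mb1
theorem mb2' : Mb2Stmt := H17.mb2
theorem one' : OneStmt := H10.n_one
theorem exi' : ExiStmt := H52.exi one'
theorem var' : VarStmt := H52.var one'
theorem chb' : ChbStmt := H92.chb exi' var'
theorem uba' : UbaStmt := H69.uba exi'
theorem lba' : LbaStmt := H47.lba exi' chb' uba'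
theorem rsg' : RsgStmt := H56.rsg
theorem rlg' : RlgStmt := H69.rlg
theorem blf' : BlfStmt := H90.blf
theorem rs1' : Rs1Stmt := H18.rs1 rsg' blf'
theorem rs2' : Rs2Stmt := H18.rs2 rsg' rlg' blf'
theorem rs3' : Rs3Stmt := H13.rs3 blf'
theorem hom' : HomStmt := H15.hom
theorem sup' : SupStmt := H20.sup uba' blf'
theorem slo' : SloStmt := H53.slo lba' hom' blf'
theorem ssa' : SsaStmt := H76.ssa sup' slo' hom' rs1' rs2' rs3'
theorem dic' : DicStmt := H91.dic mb1' mb2'
theorem ssc' : SscStmt := H13.ssc dic' ssa'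
theorem mb3' : Mb3Stmt := H60.mb3 mb1' _root_.PVD.wsg' _root_.PVD.wps'
theorem dua' : DuaStmt := H77.dua
theorem hpo' : HpoStmt := H45.hpo
theorem alc' : AlcStmt := H17.alc mb3' dua' hpo' ssc'
theorem pmc' : PmcStmt := H27.pmc L.cnt' L.wct' hpo'
theorem mct' : MctStmt := H90.mct mb1' mb3' pmc' _root_.PVD.wco' _root_.PVD.wcd'
theorem mli' : MliStmt := H09.mli alc' ssc' pmc' L.lmu'
theorem msg' : MsgStmt := H72.msg
theorem mev' : MevStmt := H47.mev mli' msg'
theorem mzr' : MzrStmt := H65.mzr mb1' mb3' _root_.PVD.win' _root_.PVD.kap'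

/-- The analytic part. -/
theorem fin : _root_.PVD.FINStmt := H20.mfn pmc' mct' mev' mzr' L.lim

/-- Two different convex bodies with the same projection data. -/
theorem neg : _root_.PVD.NEGStmt := _root_.PVD.neg_of_fin fin

end Pool.Agent.PVD.M
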