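import Pool.Agent.Helper65_PV.Stmts

/-!
Squad PVD (MP_e25c73_gt, frozen negation S14126): two different convex bodies with the same
projection volumes and projection centroids in large dimension. Common definitions.

The bodies are invariant under the symmetric group of `n + 1` letters acting on `n`-space
(= the hyperplane of sum zero in `ℝ^(n+1)`). A body is given by its support numbers `H r` for the
classes `r ∈ R`: `{x : the sum over any r coordinates of x is at most H r, for all r ∈ R}`.
-/

set_option autoImplicit false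

open MeasureTheory

namespace PVD

/-- The sum of the `r` largest coordinates of the point of the chamber with one gap equal to `1`
at place `j` (between the `j`-th and the `(j+1)`-st largest coordinate), `1 ≤ r, j ≤ n`:
`min r j * (n + 1 - max r j) / (n + 1)`. -/
noncomputable def kap (n r j : ℕ) : ℝ :=
  (min r j : ℝ) * ((n : ℝ) + 1 - (max r j : ℝ)) / ((n : ℝ) + 1)

/-- The chamber polytope in gap coordinates `d 0, ..., d (n-1) ≥ 0`. -/
def Ch (n : ℕ) (R : Finset ℕ) (H : ℕ → ℝ) : Set (Fin n → ℝ) :=
  {d | (∀ j, 0 ≤ d j) ∧ ∀ r ∈ R, ∑ j : Fin n, kap n r (j.1 + 1) * d j ≤ H r}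

/-- The volume of the chamber polytope. -/
noncomputable def W (n : ℕ) (R : Finset ℕ) (H : ℕ → ℝ) : ℝ := (volume (Ch n R H)).toReal

/-- The derivative of the volume in the support number of class `r`. -/
noncomputable def dW (n : ℕ) (R : Finset ℕ) (H : ℕ → ℝ) (r : ℕ) : ℝ :=
  deriv (fun t : ℝ => W n R (Function.update H r t)) (H r)

/-- The four classes: `n` (lower bound of the coordinates), `1` (upper bound of the coordinates),
`k` (sum of the `k` largest coordinates) and `n + 1 - k` (sum of the `k` smallest coordinates). -/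
def R4 (n k : ℕ) : Finset ℕ := {n, 1, k, n + 1 - k}

/-- FIN: the result of the analytic part. Two lists of support numbers in dimension `n` with the
same even part of the area measure and the same even part of its first moment, the first with
facets of class `1`, the second without. -/
def FINStmt : Prop := ∃ (n k : ℕ) (H H' : ℕ → ℝ), 3 ≤ n ∧ 1 < k ∧ 2 * k < n + 1 ∧
  (∀ r ∈ R4 n k, 0 < H r) ∧ (∀ r ∈ R4 n k, 0 < H' r) ∧
  dW n (R4 n k) H n + dW n (R4 n k) H 1 = dW n (R4 n k) H' n + dW n (R4 n k) H' 1 ∧
  dW n (R4 n k) H n * H n - dW n (R4 n k) H 1 * H 1 =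
    dW n (R4 n k) H' n * H' n - dW n (R4 n k) H' 1 * H' 1 ∧
  dW n (R4 n k) H k + dW n (R4 n k) H (n + 1 - k) =
    dW n (R4 n k) H' k + dW n (R4 n k) H' (n + 1 - k) ∧
  dW n (R4 n k) H k * H k - dW n (R4 n k) H (n + 1 - k) * H (n + 1 - k) =
    dW n (R4 n k) H' k * H' k - dW n (R4 n k) H' (n + 1 - k) * H' (n + 1 - k) ∧
  dW n (R4 n k) H 1 ≠ dW n (R4 n k) H' 1

/-- NEG: the conclusion, in the notation of squad PV. -/
def NEGStmt : Prop := ∃ (n : ℕ) (K L : Set (PV.E n)), 3 ≤ n ∧
  IsCompact K ∧ Convex ℝ K ∧ (interior K).Nonempty ∧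
  IsCompact L ∧ Convex ℝ L ∧ (interior L).Nonempty ∧ PV.SameData K L ∧ K ≠ L

end PVD
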