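import Pool.Agent.PVD.LDefs

/-! MP_e25c73_gt, block L: basic facts about the class functions and the base function (helper65).
Everything here is proved; use it freely. -/

set_option autoImplicit false
open MeasureTheory

namespace Pool.Agent.PVD.L

theorem cl_zero (e t : ℝ) : cl e 0 t = 1 - t := rfl
theorem cl_one (e t : ℝ) : cl e 1 t = t := rfl
theorem cl_two (e t : ℝ) : cl e 2 t = min t e - e * t := rfl
theorem cl_three (e t : ℝ) : cl e 3 t = min t (1 - e) - (1 - e) * t := rfl

theorem cl_cont (e : ℝ) (i : Fin 4) : Continuous (cl e i) := by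
  fin_cases i
  · show Continuous (fun t : ℝ => 1 - t)
    fun_prop
  · show Continuous (fun t : ℝ => t)
    fun_prop
  · show Continuous (fun t : ℝ => min t e - e * t)
    fun_prop
  · show Continuous (fun t : ℝ => min t (1 - e) - (1 - e) * t)
    fun_prop

theorem cl_nonneg {e t : ℝ} (h0 : 0 < e) (h1 : e < 1) (ht0 : 0 ≤ t) (ht1 : t ≤ 1) (i : Fin 4) :
    0 ≤ cl e i t := by
  fin_cases i
  · show 0 ≤ 1 - t
    linarith
  · show 0 ≤ t
    exact ht0
  · show 0 ≤ min t e - e * t
    rcases le_total t e with h | h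
    · rw [min_eq_left h]; nlinarith
    · rw [min_eq_right h]; nlinarith
  · show 0 ≤ min t (1 - e) - (1 - e) * t
    rcases le_total t (1 - e) with h | h
    · rw [min_eq_left h]; nlinarith
    · rw [min_eq_right h]; nlinarith

theorem cl_le {e t : ℝ} (h0 : 0 < e) (h1 : e < 1) (ht0 : 0 ≤ t) (i : Fin 4) (hi : i ≠ 0) :
    cl e i t ≤ t := by
  fin_cases i
  · exact absurd rfl hi
  · exact le_refl t
  · show min t e - e * t ≤ t
    have := min_le_left t e
    nlinarith
  · show min t (1 - e) - (1 - e) * t ≤ t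
    have := min_le_left t (1 - e)
    nlinarith

theorem cl_three_le {e t : ℝ} : cl e 3 t ≤ e * t := by
  rw [cl_three]
  have := min_le_left t (1 - e)
  nlinarith

theorem cl_two_le {e t : ℝ} : cl e 2 t ≤ e * (1 - t) := by
  rw [cl_two]
  have := min_le_right t e
  nlinarith

theorem fm_eq (e : ℝ) (m : Fin 4 → ℝ) (t : ℝ) :
    fm e m t = m 0 * (1 - t) + m 1 * t + m 2 * (min t e - e * t)
      + m 3 * (min t (1 - e) - (1 - e) * t) := by
  unfold fm
  rw [Fin.sum_univ_four]
  rfl

theorem fm_cont (e : ℝ) (m : Fin 4 → ℝ) : Continuous (fm e m) := by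
  have : fm e m = fun t => ∑ i, m i * cl e i t := by
    funext t; rfl
  rw [this]
  exact continuous_finset_sum _ fun i _ => continuous_const.mul (cl_cont e i)

theorem fm_bas (e y t : ℝ) : fm e (bas e y) t = t + beta e y * (min t e - e * t) := by
  rw [fm_eq]
  simp only [bas, Matrix.cons_val_zero, Matrix.cons_val_one, Matrix.cons_val]
  ring

theorem fm_muK (e q y t : ℝ) : fm e (muK e q y) t = fm e (bas e y) t + q * (1 - t) := by
  rw [fm_eq, fm_bas]
  simp only [muK, Matrix.cons_val_zero, Matrix.cons_val_one, Matrix.cons_val]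
  ring

theorem fm_nuL (e q sg y u1 u2 t : ℝ) : fm e (nuL e q sg y u1 u2) t =
    (1 + q) * Real.exp u1 * t + (beta e y - ss e q sg y) * Real.exp u2 * cl e 2 t
      + ss e q sg y * cl e 3 t := by
  rw [fm_eq, cl_two, cl_three]
  simp only [nuL, Matrix.cons_val_zero, Matrix.cons_val_one, Matrix.cons_val]
  ring

theorem beta_pos {e y : ℝ} (h0 : 0 < e) (h1 : e < 1 / 128) (hy : 1 / 64 ≤ y) : 0 < beta e y := by
  unfold beta
  apply div_pos
  · linarith
  · apply mul_pos h0; linarith

theorem beta_lower {e y : ℝ} (h0 : 0 < e) (h1 : e < 1 / 128) (hy : 1 / 64 ≤ y) :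
    1 / 128 / e ≤ beta e y := by
  unfold beta
  rw [div_le_div_iff₀ h0 (mul_pos h0 (by linarith))]
  nlinarith

theorem beta_upper {e y : ℝ} (h0 : 0 < e) (h1 : e < 1 / 128) (hy1 : y ≤ 1) :
    beta e y ≤ 1 / e := by
  unfold beta
  rw [div_le_div_iff₀ (mul_pos h0 (by linarith)) h0]
  nlinarith

/-- On `[0,e]` the base function is `(y/e) t`. -/
theorem bas_near {e y t : ℝ} (h0 : 0 < e) (h1 : e < 1) (ht : t ≤ e) :
    fm e (bas e y) t = y / e * t := by
  rw [fm_bas, min_eq_left ht]
  unfold beta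
  have h2 : 1 - e ≠ 0 := by linarith
  field_simp
  ring

/-- On `[e,1]` the base function is linear from `y` to `1`. -/
theorem bas_far {e y t : ℝ} (h0 : 0 < e) (h1 : e < 1) (ht : e ≤ t) :
    fm e (bas e y) t = y + (1 - y) * (t - e) / (1 - e) := by
  rw [fm_bas, min_eq_right ht]
  unfold beta
  have h2 : 1 - e ≠ 0 := by linarith
  field_simp
  ring

theorem bas_adm {e y : ℝ} (h0 : 0 < e) (h1 : e < 1 / 128) (hy : 1 / 64 ≤ y) (hy1 : y ≤ 1) :
    Adm e (y / e) (fm e (bas e y)) where
  e0 := h0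
  e1 := by linarith
  m1 := by
    rw [le_div_iff₀ h0]; linarith
  cont := fm_cont e _
  lo := by
    intro t ht0 ht1
    rw [fm_bas]
    have h2 := cl_nonneg h0 (by linarith : e < 1) ht0 ht1 2
    rw [cl_two] at h2
    have h3 := beta_pos h0 h1 hy
    nlinarith [mul_nonneg h3.le h2]
  hi := by
    intro t ht0 ht1
    rcases le_total t e with h | h
    · exact (bas_near h0 (by linarith) h).le
    · rw [bas_far h0 (by linarith) h]
      have h4 : (0:ℝ) < 1 - e := by linarith
      rw [div_mul_eq_mul_div, le_div_iff₀ h0, add_mul, div_mul_eq_mul_div]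
      have h5 : (1 - y) * (t - e) * e / (1 - e) ≤ y * (t - e) := by
        rw [div_le_iff₀ h4]
        have h6 : (1 - y) * e ≤ y * (1 - e) := by nlinarith
        have h7 : 0 ≤ t - e := by linarith
        nlinarith
      nlinarith
  near := fun t _ ht => bas_near h0 (by linarith) ht

theorem TT_nonneg {q : ℝ} (h0 : 0 < q) (h1 : q ≤ 1) : 0 ≤ TT q := by
  unfold TT
  apply mul_nonneg h0.le
  apply Real.log_nonneg
  rw [le_div_iff₀ h0]; linarith

end Pool.Agent.PVD.L
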