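import Mathlib

/-! MP_e25c73_gt, frozen negation S14126, BLOCK L (limit), definitions (helper65).

Everything is over `t` in `[0,1]`, `e` in `(0,1/2)` (the class of top `e M` sums).
The four classes are
* 0 : far cut `x_i <= X` (class function `1 - t`);
* 1 : near cut `x_i >= -a` (class function `t`);
* 2 : top `e M` sums `<= M h` (class function `min t e - e t`);
* 3 : bottom `e M` sums `>= - M c` (class function `min t (1-e) - (1-e) t`).
-/

set_option autoImplicit false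
open MeasureTheory

namespace Pool.Agent.PVD.L

/-- The four class functions. -/
noncomputable def cl (e : ℝ) (i : Fin 4) (t : ℝ) : ℝ :=
  ![1 - t, t, min t e - e * t, min t (1 - e) - (1 - e) * t] i

/-- `f_m(t) = sum_i m_i c_i(t)`. -/
noncomputable def fm (e : ℝ) (m : Fin 4 → ℝ) (t : ℝ) : ℝ := ∑ i, m i * cl e i t

/-- Support numbers belonging to the dual vector `m`: `H_i = int c_i / f_m`. -/
noncomputable def Hm (e : ℝ) (m : Fin 4 → ℝ) (i : Fin 4) : ℝ :=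
  ∫ t in (0:ℝ)..1, cl e i t / fm e m t

/-- Entropy `Phi(m) = - int log f_m` (limit of `(1/M) log (M^(M-1) V_M)` at `H(m)`,
up to the additive constant 1 common to all `m`). -/
noncomputable def Ph (e : ℝ) (m : Fin 4 → ℝ) : ℝ := - ∫ t in (0:ℝ)..1, Real.log (fm e m t)

/-- `beta`: the coefficient of class 2 for which `t + beta c_2(t)` takes the value `y` at `e`. -/
noncomputable def beta (e y : ℝ) : ℝ := (y - e) / (e * (1 - e))

/-- Dual vector of the base body, `f = t + beta c_2`. -/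
noncomputable def bas (e y : ℝ) : Fin 4 → ℝ := ![0, 1, beta e y, 0]

/-- `T = q log (1/q)`. -/
noncomputable def TT (q : ℝ) : ℝ := q * Real.log (1 / q)

/-- `a = int t / f`. -/
noncomputable def aa (e y : ℝ) : ℝ := Hm e (bas e y) 1
/-- `h = int c_2 / f`. -/
noncomputable def hh (e y : ℝ) : ℝ := Hm e (bas e y) 2
/-- `c = int c_3 / f`. -/
noncomputable def cc (e y : ℝ) : ℝ := Hm e (bas e y) 3
/-- `J = int t (c_3 - c_2) / f^2`. -/
noncomputable def JJ (e y : ℝ) : ℝ :=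
  ∫ t in (0:ℝ)..1, t * (cl e 3 t - cl e 2 t) / (fm e (bas e y) t) ^ 2

/-- The weight `w = 1/(m (h+c))`, `m = y/e`. -/
noncomputable def ww (e y : ℝ) : ℝ := e / (y * (hh e y + cc e y))

/-- `s = sigma T w`. -/
noncomputable def ss (e q sg y : ℝ) : ℝ := sg * TT q * ww e y

/-- Dual vector of `K`. -/
noncomputable def muK (e q y : ℝ) : Fin 4 → ℝ := ![q, 1, beta e y, 0]

/-- `lambda` times the dual vector of `L`. -/
noncomputable def nuL (e q sg y u1 u2 : ℝ) : Fin 4 → ℝ :=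
  ![0, (1 + q) * Real.exp u1, (beta e y - ss e q sg y) * Real.exp u2, ss e q sg y]

/-- `lambda = exp (v + int log (g / f_K))`. -/
noncomputable def lam (e q sg y u1 u2 v : ℝ) : ℝ :=
  Real.exp (v + Ph e (muK e q y) - Ph e (nuL e q sg y u1 u2))

/-- Dual vector of `L` (classes 1, 2, 3). -/
noncomputable def muL (e q sg y u1 u2 v : ℝ) : Fin 4 → ℝ :=
  fun i => nuL e q sg y u1 u2 i / lam e q sg y u1 u2 v

/-- Sum of the two moment equations: `(1 - 2 q X) - lambda (1 - 2 s C)`. -/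
noncomputable def LR (e q sg y u1 u2 v : ℝ) : ℝ :=
  (1 - 2 * q * Hm e (muK e q y) 0) -
    lam e q sg y u1 u2 v * (1 - 2 * ss e q sg y * Hm e (nuL e q sg y u1 u2) 3)

/-- Moment equation of the pair of classes 0, 1. -/
noncomputable def LP (e q sg y u1 u2 v : ℝ) : ℝ :=
  (Hm e (muK e q y) 1 - q * Hm e (muK e q y) 0) -
    lam e q sg y u1 u2 v * ((1 + q) * Real.exp u1 * Hm e (nuL e q sg y u1 u2) 1)

/-- FINAL STATEMENT OF BLOCK L. `e = 1/k`; the box is `sg in [1-d,1+d]`, `y in [1/64,1]`,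
`|u1|, |u2|, |v| <= q`; `kap` is the margin. The three remaining functions of the Miranda system
are explicit: `lam * muL_1 = (1+q) e^u1`, `lam * (muL_2 + muL_3) = (beta - s) e^u2 + s`,
`Phi(muL) - Phi(muK) = v` (see the row LMU). `lam < 1` gives `K <> L` (volumes). -/
def LimStmt : Prop :=
  ∃ k : ℕ, 128 < k ∧ ∃ q d kap : ℝ, 0 < q ∧ q < 1 ∧ 0 < d ∧ d < 1 / 2 ∧ 0 < kap ∧
    ∀ sg y u1 u2 v : ℝ, |sg - 1| ≤ d → 1 / 64 ≤ y → y ≤ 1 → |u1| ≤ q → |u2| ≤ q → |v| ≤ q →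
      0 < ss (1 / k) q sg y ∧ 2 * ss (1 / k) q sg y < beta (1 / k) y ∧
      lam (1 / k) q sg y u1 u2 v < 1 ∧
      (sg = 1 - d → LR (1 / k) q sg y u1 u2 v ≤ - kap) ∧
      (sg = 1 + d → kap ≤ LR (1 / k) q sg y u1 u2 v) ∧
      (y = 1 / 64 → kap ≤ LP (1 / k) q sg y u1 u2 v) ∧
      (y = 1 → LP (1 / k) q sg y u1 u2 v ≤ - kap)

/-- Parameters of the box before the choice of `d`, `q` (`T` is assumed small separately). -/
structure Par (e q sg y u1 u2 v : ℝ) : Prop where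
  e0 : 0 < e
  e1 : e < 1 / 128
  q0 : 0 < q
  qT : q ≤ TT q
  s0 : 1 / 2 ≤ sg
  s1 : sg ≤ 3 / 2
  y0 : 1 / 64 ≤ y
  y1 : y ≤ 1
  u1b : |u1| ≤ q
  u2b : |u2| ≤ q
  vb : |v| ≤ q

/-- Abstract form of the base function `f`: `t <= f(t) <= m t`, `f(t) = m t` on `[0,e]`. -/
structure Adm (e m : ℝ) (f : ℝ → ℝ) : Prop where
  e0 : 0 < e
  e1 : e < 1
  m1 : 1 ≤ m
  cont : Continuous f
  lo : ∀ t, 0 ≤ t → t ≤ 1 → t ≤ f t
  hi : ∀ t, 0 ≤ t → t ≤ 1 → f t ≤ m * t
  near : ∀ t, 0 ≤ t → t ≤ e → f t = m * t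

/-- The first order coefficient of `LP / s`. -/
noncomputable def br (e sg y : ℝ) : ℝ :=
  -((hh e y + cc e y) * (1 + e / y) / sg) - (cc e y - hh e y) * aa e y
    + (hh e y + cc e y) * aa e y / sg + JJ e y

/-- `G = (h+c)(1+e/y) - 2 h a - J = - br` at `sg = 1`. -/
noncomputable def GG (e y : ℝ) : ℝ :=
  (hh e y + cc e y) * (1 + e / y) - 2 * hh e y * aa e y - JJ e y

/-- `phi(x) = 1/64 + 63/64 x`. -/
noncomputable def ph (x : ℝ) : ℝ := 1 / 64 + 63 / 64 * x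
noncomputable def A0 : ℝ := ∫ x in (0:ℝ)..1, x / ph x
noncomputable def b0 : ℝ := ∫ x in (0:ℝ)..1, (1 - x) / ph x
noncomputable def j0 : ℝ := ∫ x in (0:ℝ)..1, x * (1 - 2 * x) / ph x ^ 2

end Pool.Agent.PVD.L
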