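import Pool.Agent.PVD.LBasic

/-! MP_e25c73_gt, frozen negation S14126, BLOCK L (limit): THE ROWS (helper65).

NOTATION. `m = y/e`, `f = fm e (bas e y)` (so `f = t + beta c_2`, `f(0) = 0`, `f(e) = y`,
`f(1) = 1`, `t <= f <= m t`: `bas_adm` in `LBasic`), `f_K = f + q (1-t)` (`fm_muK`),
`g = fm e (nuL ..)` (`fm_nuL`), `D = c_3 - c_2`, `T = TT q = q log(1/q)`, `s = ss ..`,
`h = hh`, `c = cc`, `a = aa`, `J = JJ`. All integrals over `[0,1]`. All constants `C` are allowed to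
depend on `e` only (uniform in `y` in `[1/64,1]`, `sg` in `[1/2,3/2]`, `|u1|,|u2|,|v| <= q`).
-/

set_option autoImplicit false
open MeasureTheory

namespace Pool.Agent.PVD.L

/-- Dual vectors with finite `H_1, H_2, H_3` and `Phi`. -/
def DL : Set (Fin 4 → ℝ) := {m | 0 ≤ m 0 ∧ 0 < m 1 ∧ 0 ≤ m 2 ∧ 0 ≤ m 3}
/-- Dual vectors with finite `H_0` as well. -/
def DK : Set (Fin 4 → ℝ) := {m | 0 < m 0 ∧ 0 < m 1 ∧ 0 ≤ m 2 ∧ 0 ≤ m 3}

/-- CNT. Continuity of support numbers and entropy in the dual vector.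
PROOF. `m` in `DL`: `fm e m t >= m_1 t` for `t` in `[0,1]` (`cl_nonneg`), so for `i <> 0`
`0 <= c_i / f_m <= 1/m_1` (`cl_le`), and `m_1 t <= f_m(t) <= sum m_i`, so
`|log f_m| <= |log m_1| + |log t| + |log (sum m_i)|` or similar (`log t` is integrable on `[0,1]`:
`intervalIntegral.intervalIntegrable_log'` or the like). Near a point `m'` of `DL` one has
`m_1 >= m'_1/2` and `m_i <= m'_i + 1`: dominated convergence
(`intervalIntegral.continuousWithinAt_of_dominated_interval` or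
`MeasureTheory.tendsto_integral_filter_of_dominated_convergence` within `DL`), pointwise limit at
each `t` in `(0,1]` because `fm` is continuous in `m` and positive. For `i = 0` and `m` in `DK`:
`f_m(t) >= min m_0 m_1 > 0` (`m_0 (1-t) + m_1 t`), so the integrand is bounded. -/
def CntStmt : Prop := ∀ e : ℝ, 0 < e → e < 1 / 2 →
  (∀ i : Fin 4, i ≠ 0 → ContinuousOn (fun m : Fin 4 → ℝ => Hm e m i) DL) ∧
  ContinuousOn (fun m : Fin 4 → ℝ => Hm e m 0) DK ∧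
  ContinuousOn (fun m : Fin 4 → ℝ => Ph e m) DL

/-- WCT. Continuity of the weight. PROOF. `y ↦ bas e y` is continuous into `DL` on `[1/64,1]`
(`beta_pos`), so `hh e`, `cc e` are continuous there by CNT, and `y (h+c) > 0` by WBD. -/
def WctStmt : Prop := ∀ e : ℝ, 0 < e → e < 1 / 128 →
  ContinuousOn (fun y : ℝ => ww e y) (Set.Icc (1 / 64) 1)

/-- LMU. The dual vector of `L`. PROOF. `lam > 0` (exp). `fm e muL t = fm e nuL t / lam` (sum), so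
`Hm e muL i = lam * Hm e nuL i` (constant out of the integral) and, as `fm e nuL t > 0` for
`t` in `(0,1]` (`fm_nuL`, `cl_nonneg`, `(1+q) e^u1 t > 0`), `log (g/lam) = log g - log lam` a.e.,
`Ph e muL = Ph e nuL + log lam` (integrability of `log g` on `[0,1]`: `(1+q)e^u1 t <= g <= const`),
and `log lam = v + Ph e muK - Ph e nuL`. -/
def LmuStmt : Prop := ∀ e q sg y u1 u2 v : ℝ, 0 < e → e < 1 / 128 → 0 < q → 1 / 64 ≤ y → y ≤ 1 →
  0 < ss e q sg y → 2 * ss e q sg y < beta e y →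
  (∀ i, Hm e (muL e q sg y u1 u2 v) i =
    lam e q sg y u1 u2 v * Hm e (nuL e q sg y u1 u2) i) ∧
  Ph e (muL e q sg y u1 u2 v) - Ph e (muK e q y) = v ∧
  muL e q sg y u1 u2 v 0 = 0 ∧ 0 < muL e q sg y u1 u2 v 1 ∧ 0 < muL e q sg y u1 u2 v 2 ∧
  0 < muL e q sg y u1 u2 v 3

/-- XLG. PROOF. Compare with `int 1/(m t + q) = (1/m) (log (m+q) - log q)`. The difference of the
integrands is `(m t (1-t) - f) / ((f + q(1-t)) (m t + q))`. Numerator: for `t <= e` it is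
`- m t^2`; for `t >= e` both `m t (1-t)` and `f` lie in `[0, m t]`, so it is at most
`m t <= m t^2 / e` in absolute value: always `|num| <= (m/e) t^2`. Denominator
`>= f * (m t) >= m t^2`. So the integrands differ by at most `1/e` (for `t > 0`), and
`(1/m) (log (m+q) - log q) - (1/m) log (1/q) = (1/m) log (m+q)` lies in `[0, log (m+1)]`. -/
def XlgStmt : Prop := ∀ (e m q : ℝ) (f : ℝ → ℝ), Adm e m f → 0 < q → q < 1 →
  |(∫ t in (0:ℝ)..1, (1 - t) / (f t + q * (1 - t))) - Real.log (1 / q) / m|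
    ≤ 1 / e + Real.log (m + 1)

/-- AKX. PROOF. For `t` in `(0,1]`
`t/(f + q(1-t)) - t/f + (q/m) (1-t)/(f + q(1-t)) = q (1-t)/(f + q(1-t)) * (1/m - t/f)`.
For `t <= e` the last factor is 0; for `t >= e` both `1/m` and `t/f` are in `[0,1]` and
`f + q(1-t) >= f >= t >= e`. So the integrand is at most `q/e` in absolute value. -/
def AkxStmt : Prop := ∀ (e m q : ℝ) (f : ℝ → ℝ), Adm e m f → 0 < q → q < 1 →
  |(∫ t in (0:ℝ)..1, t / (f t + q * (1 - t))) - (∫ t in (0:ℝ)..1, t / f t)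
    + q / m * ∫ t in (0:ℝ)..1, (1 - t) / (f t + q * (1 - t))| ≤ q / e

/-- LOG. PROOF. `log f_K - log f = log (1 + q(1-t)/f)`, compare with
`log (1 + q/(m t)) = log (m t + q) - log (m t)`: `|log (1+x) - log (1+y)| <= |x - y|` for
`x, y >= 0`, and `|q(1-t)/f - q/(m t)| = q |m t (1-t) - f| / (f m t) <= q/e` as in XLG. And
`int (log (m t + q) - log (m t)) = ((m+q) log (m+q) - q log q)/m - log m
 = (q/m) log (1/q) + (1+b) log (1+b) + (q/m) log m` with `b = q/m`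
(use `integral_log` with a linear substitution); `0 <= (1+b) log (1+b) <= (1+b) b <= 2 q`,
`0 <= (q/m) log m <= q`. -/
def LogStmt : Prop := ∀ (e m q : ℝ) (f : ℝ → ℝ), Adm e m f → 0 < q → q < 1 →
  |(∫ t in (0:ℝ)..1, Real.log (f t + q * (1 - t))) - (∫ t in (0:ℝ)..1, Real.log (f t))
    - q * Real.log (1 / q) / m| ≤ q * (1 / e + 3)

/-- GLN. PROOF. For `t` in `(0,1]`, `x = r/f`, `|x| <= rho <= 1/2`:
`|log (f+r) - log f - x| = |log (1+x) - x| <= x^2 <= rho^2`. Integrability: `f`, `r` continuous,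
`t <= f <= B` on `[0,1]`, `f/2 <= f + r <= 2 f`, so the logarithms are bounded by
`|log t| + const`; `r/f` is bounded and measurable. -/
def GlnStmt : Prop := ∀ (f r : ℝ → ℝ) (rho : ℝ), Continuous f → Continuous r →
  (∀ t, 0 ≤ t → t ≤ 1 → t ≤ f t) → 0 ≤ rho → rho ≤ 1 / 2 →
  (∀ t, 0 ≤ t → t ≤ 1 → |r t| ≤ rho * f t) →
  |(∫ t in (0:ℝ)..1, Real.log (f t + r t)) - (∫ t in (0:ℝ)..1, Real.log (f t))
    - ∫ t in (0:ℝ)..1, r t / f t| ≤ rho ^ 2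

/-- GIN. PROOF. `c/(f+r) - c/f + c r/f^2 = c r^2 / (f^2 (f+r))`, absolute value
`<= K f (rho f)^2 / (f^2 f/2) = 2 K rho^2`. All four integrands are bounded and measurable
(continuous on `(0,1]`). -/
def GinStmt : Prop := ∀ (f r c : ℝ → ℝ) (rho K : ℝ), Continuous f → Continuous r → Continuous c →
  (∀ t, 0 ≤ t → t ≤ 1 → t ≤ f t) → 0 ≤ rho → rho ≤ 1 / 2 → 0 ≤ K →
  (∀ t, 0 ≤ t → t ≤ 1 → |r t| ≤ rho * f t) → (∀ t, 0 ≤ t → t ≤ 1 → |c t| ≤ K * f t) →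
  |(∫ t in (0:ℝ)..1, c t / (f t + r t)) - (∫ t in (0:ℝ)..1, c t / f t)
    + ∫ t in (0:ℝ)..1, c t * r t / f t ^ 2| ≤ 2 * K * rho ^ 2

/-- WBD. PROOF. `0 <= c_i <= t <= f` for `i = 1, 2, 3` on `[0,1]` gives `0 <= a, h, c <= 1`, and
`|t (c_3 - c_2)/f^2| <= 1` (`c_3 - c_2` is a difference of numbers in `[0,t]`) gives `|J| <= 1`.
`h >= int_0^e c_2/f = int_0^e (1-e) t/((y/e) t) = (1-e) e^2/y >= e^2/2`. The rest is algebra. -/
def WbdStmt : Prop := ∀ e y : ℝ, 0 < e → e < 1 / 128 → 1 / 64 ≤ y → y ≤ 1 →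
  e ^ 2 / 2 ≤ hh e y ∧ hh e y ≤ 1 ∧ 0 ≤ cc e y ∧ cc e y ≤ 1 ∧ 0 ≤ aa e y ∧ aa e y ≤ 1 ∧
  |JJ e y| ≤ 1 ∧ e / 2 ≤ ww e y ∧ ww e y ≤ 128 / e ∧ ww e y * (hh e y + cc e y) = e / y

/-- REM. PROOF. `0 < s <= (3/2) T (128/e)` (WBD; `T >= q > 0`). `s < beta/2` because
`beta >= 1/(128 e)` (`beta_lower`) and `s <= 192 T/e <= 96/(e C)`; take `C` large.
`g - f - s D = ((1+q) e^u1 - 1) t + (beta - s) (e^u2 - 1) c_2` (`fm_nuL`, `fm_bas`),
`|e^u - 1| <= 2|u|` for `|u| <= 1`, `0 <= beta - s <= beta <= 1/e` (`beta_upper`), `0 <= c_2 <= t <= f`,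
so it is at most `(4 q + 2 q/e) f`; and `|s D| <= s f`. (`q <= T <= 1/(2C) <= 1`.) -/
def RemStmt : Prop := ∀ e : ℝ, 0 < e → e < 1 / 128 → ∃ C : ℝ, 1 ≤ C ∧
  ∀ q sg y u1 u2 v : ℝ, Par e q sg y u1 u2 v → C * TT q ≤ 1 / 2 →
    0 < ss e q sg y ∧ 2 * ss e q sg y < beta e y ∧ ss e q sg y ≤ C * TT q ∧
    ∀ t, 0 ≤ t → t ≤ 1 →
      |fm e (nuL e q sg y u1 u2) t - fm e (bas e y) t| ≤ C * TT q * fm e (bas e y) t ∧
      |fm e (nuL e q sg y u1 u2) t - fm e (bas e y) t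
        - ss e q sg y * (cl e 3 t - cl e 2 t)| ≤ C * q * fm e (bas e y) t

/-- EXL. Uses REM, GLN, LOG, WBD. PROOF. `L := v + Ph muK - Ph nuL
= v + (int log g - int log f) - (int log f_K - int log f)`. GLN with `r = g - f`, `rho = C_1 T`:
`|int log g - int log f - int r/f| <= C_1^2 T^2`, and `|int r/f - s (c - h)| <= C_1 q` (second part
of REM, `int c_3/f = c`, `int c_2/f = h`). LOG with `m = y/e`:
`|int log f_K - int log f - T e/y| <= q (1/e + 3)`. `|v| <= q`. This is the first claim. Since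
`|L| <= C T` (`s <= C_1 T`, `e/y <= 1`, `q <= T`) and `|exp L - 1 - L| <= L^2` for `|L| <= 1`
(choose the constant in `C * T <= 1/2` large enough), the second claim. -/
def ExlStmt : Prop := ∀ e : ℝ, 0 < e → e < 1 / 128 → ∃ C : ℝ, 1 ≤ C ∧
  ∀ q sg y u1 u2 v : ℝ, Par e q sg y u1 u2 v → C * TT q ≤ 1 / 2 →
    |v + Ph e (muK e q y) - Ph e (nuL e q sg y u1 u2)
      - (ss e q sg y * (cc e y - hh e y) - TT q * (e / y))| ≤ C * (q + TT q ^ 2) ∧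
    |lam e q sg y u1 u2 v - 1
      - (ss e q sg y * (cc e y - hh e y) - TT q * (e / y))| ≤ C * (q + TT q ^ 2)

/-- EXI. Uses REM, GIN. PROOF. GIN with `r = g - f`, `rho = C_1 T`, `K = 1` (`0 <= c_3, t <= f`).
First: `|int c_3/g - int c_3/f| <= int |c_3 r|/f^2 + 2 rho^2 <= rho + 2 rho^2`. Second:
`int t r/f^2 = s J + O(C_1 q)` by the second part of REM (`t |r - s D|/f^2 <= C_1 q`). -/
def ExiStmt : Prop := ∀ e : ℝ, 0 < e → e < 1 / 128 → ∃ C : ℝ, 1 ≤ C ∧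
  ∀ q sg y u1 u2 v : ℝ, Par e q sg y u1 u2 v → C * TT q ≤ 1 / 2 →
    |Hm e (nuL e q sg y u1 u2) 3 - cc e y| ≤ C * TT q ∧
    |Hm e (nuL e q sg y u1 u2) 1 - (aa e y - ss e q sg y * JJ e y)| ≤ C * (q + TT q ^ 2)

/-- EXK. Uses XLG, AKX. PROOF. `Hm e muK 0 = int (1-t)/f_K` (`fm_muK`), XLG times `q`
(`log (m+1) <= m <= 1/e`). `Hm e muK 1 = int t/f_K = a - (1/m) (q X) + O(q/e)` by AKX and
`q X = T/m + O(q)`. (`TT q = q log (1/q)`, `1/m = e/y`; `q < 1` from `q <= TT q`.) -/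
def ExkStmt : Prop := ∀ e : ℝ, 0 < e → e < 1 / 128 → ∃ C : ℝ, 1 ≤ C ∧
  ∀ q y : ℝ, 0 < q → q ≤ TT q → 1 / 64 ≤ y → y ≤ 1 →
    |q * Hm e (muK e q y) 0 - TT q * (e / y)| ≤ C * q ∧
    |Hm e (muK e q y) 1 - (aa e y - TT q * (e / y) ^ 2)| ≤ C * q

/-- EXR. Uses REM, EXL, EXI, EXK, WBD. PROOF. With `x = s (c-h) - T e/y`, `|x| <= C T`:
`1 - 2 q X = 1 - 2 T e/y + O(q)`, `lam = 1 + x + O(q + T^2)`, `1 - 2 s Hm nuL 3 = 1 - 2 s c + O(T^2)`,
so `LR = - 2 T e/y - x + 2 s c + O(q + T^2) = - T e/y + s (c+h) + O(q + T^2)` and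
`s (c + h) = sg T e/y` (WBD, last item; `ss = sg * TT q * ww`). -/
def ExrStmt : Prop := ∀ e : ℝ, 0 < e → e < 1 / 128 → ∃ C : ℝ, 1 ≤ C ∧
  ∀ q sg y u1 u2 v : ℝ, Par e q sg y u1 u2 v → C * TT q ≤ 1 / 2 →
    |LR e q sg y u1 u2 v - e / y * TT q * (sg - 1)| ≤ C * (q + TT q ^ 2)

/-- EXP. Uses REM, EXL, EXI, EXK, WBD. PROOF. With `m = y/e`, `x = s (c-h) - T/m`:
`LP = (a - T/m^2) - T/m - (1+x) (a - s J) + O(q + T^2)`
`= - T/m^2 - T/m - s (c-h) a + (T/m) a + s J + O(q + T^2)` (the products `x s J`, `q a` etc. are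
`O(q + T^2)`, `|(1+q) e^u1 - 1| <= 4 q`), and `T/m = s (h+c)/sg` (WBD) turns this into `s * br`. -/
def ExpStmt : Prop := ∀ e : ℝ, 0 < e → e < 1 / 128 → ∃ C : ℝ, 1 ≤ C ∧
  ∀ q sg y u1 u2 v : ℝ, Par e q sg y u1 u2 v → C * TT q ≤ 1 / 2 →
    |LP e q sg y u1 u2 v - ss e q sg y * br e sg y| ≤ C * (q + TT q ^ 2)

/-- GG1. PROOF. `y = 1`: `f = t/e` on `[0,e]`, `f = 1` on `[e,1]` (`bas_near`, `bas_far`), so
`a = (1 + e^2)/2`, `h = e^2 (1-e) + e (1-e)^2/2`,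
`c = e^3 + e (1-2e)/2 + (1-e) e^2/2`, `J = -(1-2e) e^3 + e * int_e^(1-e) (2t^2 - t) +
(1-2e) int_(1-e)^1 t (1-t)`; `G = e/3 + O(e^2)`, positive for `e < 1/128` (polynomial). It is
enough to use `J <= e int_e^1 (2t^2 - t) <= e/6 + ..` (see GEJ), `h + c >= ..`: any proof is fine. -/
def Gg1Stmt : Prop := ∀ e : ℝ, 0 < e → e < 1 / 128 → 0 < GG e 1

/-- GEA (`y = 1/64`). PROOF. Split at `e` (`bas_near`, `bas_far`), on `[e,1]` substitute
`t = e + (1-e) x`, `f = ph x`: `a = int_0^e e/y + (1-e) int_0^1 (e + (1-e) x)/ph`, so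
`a = e^2/y + e (1-e) int 1/ph + (1-e)^2 A0`, `|a - A0| <= C e`. And `c_3 = e t - (t - (1-e))^+`,
so `c = e a - int_(1-e)^1 (t - (1-e))/f`, the last integral lies in `[0, e^2]` (`f >= t >= 1/2`). -/
def GeaStmt : Prop := ∃ C : ℝ, 0 < C ∧ ∀ e : ℝ, 0 < e → e < 1 / 128 →
  |aa e (1 / 64) - A0| ≤ C * e ∧ |cc e (1 / 64) - e * A0| ≤ C * e ^ 2

/-- GEH (`y = 1/64`). PROOF. `c_2 = (1-e) t` on `[0,e]`, `= e (1-t)` on `[e,1]`, substitution as in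
GEA, `1 - t = (1-e)(1-x)`: `h = (1-e) e^2/y + e (1-e)^2 b0`. -/
def GehStmt : Prop := ∃ C : ℝ, 0 < C ∧ ∀ e : ℝ, 0 < e → e < 1 / 128 →
  |hh e (1 / 64) - e * b0| ≤ C * e ^ 2

/-- GEJ (`y = 1/64`). PROOF. On `[0,e]`: `c_3 - c_2 = (2e-1) t`, `f = t/(64 e)`, the integrand is
`(2e-1) (64 e)^2`, contribution `O(e^3)`. On `[e,1]`: `c_3 - c_2 = e (2t - 1) - (t - (1-e))^+`; the
last term contributes at most `int_(1-e)^1 t (t-(1-e))/f^2 <= 4 e^2`; main term: substitution as in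
GEA, `e (1-e) int_0^1 (e + (1-e)x) (2e + 2(1-e)x - 1)/ph^2 = e * int x (2x-1)/ph^2 + O(e^2)
= - e j0 + O(e^2)`. -/
def GejStmt : Prop := ∃ C : ℝ, 0 < C ∧ ∀ e : ℝ, 0 < e → e < 1 / 128 →
  |JJ e (1 / 64) + e * j0| ≤ C * e ^ 2

/-- GNU. PROOF. `y = 1/64`, `r = 63/64`, `I = int 1/ph = log 64 / r = 6 log 2 / r`,
`A0 = (1 - y I)/r`, `b0 = I - A0`, `j0 = (I-1)/r - 2 (1 + y - 2 y I)/r^2`
(`int 1/ph^2 = 1/y = 64`; `x = (ph - y)/r`). Numbers: `I = 4.2249`, `A0 = .94881`, `b0 = 3.27609`,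
`j0 = 1.45234`, `A0 + b0 + j0 - 2 A0 b0 = -.5395`. Use `Real.log_two_gt_d9`, `Real.log_two_lt_d9`.
(Derivatives for the fundamental theorem of calculus: `log (ph x)`, `1/ph x`.) -/
def GnuStmt : Prop := A0 + b0 + j0 - 2 * A0 * b0 < 0 ∧ 0 ≤ A0 ∧ A0 ≤ 1 ∧ 0 ≤ b0 ∧ b0 ≤ 64

/-- G64. Uses GEA, GEH, GEJ, GNU. PROOF. `GG e (1/64)/e = (h + c)/e (1 + 64 e) - 2 (h/e) a - J/e
-> b0 + A0 - 2 b0 A0 + j0 < 0`. -/
def G64Stmt : Prop := ∃ e0 : ℝ, 0 < e0 ∧ ∀ e : ℝ, 0 < e → e < e0 → e < 1 / 128 → GG e (1 / 64) < 0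

/-- FIN. Uses REM, EXL, EXR, EXP, WBD, GG1, G64. PROOF. `k` large, `e = 1/k < min e0 (1/128)`.
`br e 1 y = - GG e y`, and `br` is continuous in `sg`, so there is `d < 1/2`, also
`d <= e^2/8`, with `br e sg 1 <= - GG e 1/2` and `br e sg (1/64) >= - GG e (1/64)/2` for
`|sg - 1| <= d`. Put `rho(q) = (q + T^2)/T = 1/log (1/q) + T -> 0` as `q -> 0+`. Then for `q` small
(all constants `C` depend on `e` only; `C T <= 1/2` for all of them; `q <= T`):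
`LR = (e/y) T (sg - 1) + O(C rho T)`, `e/y >= e`: at `sg = 1 + d` it is `>= e T d/2`, at `1 - d` it
is `<= - e T d/2`. `LP = s br + O(C rho T)`, `s >= (1/2) T (e/2)` (WBD): at `y = 1` it is
`<= - (e T/4) GG e 1/4`, at `y = 1/64` it is `>= (e T/4) (- GG e (1/64))/4`. `lam < 1`: the exponent
is `s (c-h) - T e/y + O(C rho T)`, and `T e/y = s (h+c)/sg`, so it is
`s ((c-h) - (c+h)/sg) + O(..) <= - s h + O(..)`, since
`(c-h) - (c+h)/sg <= (c-h) - (c+h)(1-d) <= - 2 h + 2 d <= - h` (`h >= e^2/2`, `d <= e^2/8`,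
`1/sg >= 1 - d` for `sg <= 1 + d`); `s h >= (e T/4) (e^2/2)`. Take `kap` = the minimum of the four
positive numbers. -/
def FinStmt : Prop := LimStmt

end Pool.Agent.PVD.L
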