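import Pool.Agent.PVD.StmtsG
import Pool.Agent.PVD.StmtsL

/-! MP_e25c73_gt, frozen negation S14126, BLOCK M (finite dimension), definitions (helper65).

`k` = the number of `LimStmt` (`e = 1/k`), `m -> infinity`, `M = k m = n + 1`.
Four classes `i : Fin 4` as in block L: 0 = far cut, 1 = near cut, 2 = top `m` sums,
3 = bottom `m` sums, i.e. the classes `1, n, m, n + 1 - m` of `PVD.Defs`. -/

set_option autoImplicit false
open MeasureTheory Filter Topology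

namespace Pool.Agent.PVD.M

open Pool.Agent.PVD.L

/-- The dimension `n = k m - 1`. -/
def nn (k m : ℕ) : ℕ := k * m - 1

/-- The class `PVD.Defs` of the class `i` of block L. -/
def cm (k m : ℕ) (i : Fin 4) : ℕ := ![1, nn k m, m, nn k m + 1 - m] i

/-- Scale of the support number of class `i`. -/
noncomputable def sc (k m : ℕ) (i : Fin 4) : ℝ := ![1, 1, (k : ℝ) * m, (k : ℝ) * m] i

/-- The list of support numbers `r ↦ H r` belonging to `h : Fin 4 → ℝ`. -/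
noncomputable def Hn (k m : ℕ) (h : Fin 4 → ℝ) (r : ℕ) : ℝ :=
  if r = 1 then h 0 else if r = nn k m then h 1 else if r = m then (k : ℝ) * m * h 2
  else if r = nn k m + 1 - m then (k : ℝ) * m * h 3 else 1

/-- The finset of classes of `A`. -/
def CR (k m : ℕ) (A : Finset (Fin 4)) : Finset ℕ := A.image (cm k m)

/-- Classes of `K`. -/
def AK : Finset (Fin 4) := {0, 1, 2}
/-- Classes of `L`. -/
def AL : Finset (Fin 4) := {1, 2, 3}

/-- Volume of the chamber polytope with classes `A` and support numbers `h`. -/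
noncomputable def WW (k m : ℕ) (A : Finset (Fin 4)) (h : Fin 4 → ℝ) : ℝ :=
  _root_.PVD.W (nn k m) (CR k m A) (Hn k m h)

/-- Normalised logarithm of the volume. -/
noncomputable def SS (k m : ℕ) (A : Finset (Fin 4)) (h : Fin 4 → ℝ) : ℝ :=
  (1 / (nn k m : ℝ)) * Real.log ((nn k m : ℝ) ^ (nn k m) * WW k m A h)

/-- Normalised derivatives (`sum_i al_i h_i = 1`). -/
noncomputable def al (k m : ℕ) (A : Finset (Fin 4)) (h : Fin 4 → ℝ) (i : Fin 4) : ℝ :=
  sc k m i * _root_.PVD.dW (nn k m) (CR k m A) (Hn k m h) (cm k m i) / ((nn k m : ℝ) * WW k m A h)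

/-- `mu` is positive exactly on `A`. -/
def PA (A : Finset (Fin 4)) (mu : Fin 4 → ℝ) : Prop := (∀ i ∈ A, 0 < mu i) ∧ ∀ i ∉ A, mu i = 0

/-- The data of `LimStmt` after the existential quantifiers. -/
def LimOK (k : ℕ) (q d kap : ℝ) : Prop :=
  128 < k ∧ 0 < q ∧ q < 1 ∧ 0 < d ∧ d < 1 / 2 ∧ 0 < kap ∧
    ∀ sg y u1 u2 v : ℝ, |sg - 1| ≤ d → 1 / 64 ≤ y → y ≤ 1 → |u1| ≤ q → |u2| ≤ q → |v| ≤ q →
      0 < ss (1 / k) q sg y ∧ 2 * ss (1 / k) q sg y < beta (1 / k) y ∧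
      lam (1 / k) q sg y u1 u2 v < 1 ∧
      (sg = 1 - d → LR (1 / k) q sg y u1 u2 v ≤ - kap) ∧
      (sg = 1 + d → kap ≤ LR (1 / k) q sg y u1 u2 v) ∧
      (y = 1 / 64 → kap ≤ LP (1 / k) q sg y u1 u2 v) ∧
      (y = 1 → LP (1 / k) q sg y u1 u2 v ≤ - kap)

/-! The box: `x : Fin 5 → ℝ` in the unit cube, `x 0, x 1, x 2` = `u1, u2, v` (scaled),
`x 3` = `sg`, `x 4` = `y`. -/

/-- `u1, u2, v` (for `i = 0, 1, 2`). -/
noncomputable def pu (q : ℝ) (x : Fin 5 → ℝ) (i : Fin 5) : ℝ := q * (2 * x i - 1)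
noncomputable def psg (d : ℝ) (x : Fin 5 → ℝ) : ℝ := 1 + d * (2 * x 3 - 1)
noncomputable def py (x : Fin 5 → ℝ) : ℝ := 1 / 64 + 63 / 64 * x 4

/-- Dual vector of `K` on the box. -/
noncomputable def mK (k : ℕ) (q : ℝ) (x : Fin 5 → ℝ) : Fin 4 → ℝ := muK (1 / k) q (py x)
/-- Dual vector of `L` on the box. -/
noncomputable def mL (k : ℕ) (q d : ℝ) (x : Fin 5 → ℝ) : Fin 4 → ℝ :=
  muL (1 / k) q (psg d x) (py x) (pu q x 0) (pu q x 1) (pu q x 2)
/-- The wanted value of `W_L / W_K` on the box. -/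
noncomputable def lm (k : ℕ) (q d : ℝ) (x : Fin 5 → ℝ) : ℝ :=
  lam (1 / k) q (psg d x) (py x) (pu q x 0) (pu q x 1) (pu q x 2)
/-- Support numbers of `K` on the box. -/
noncomputable def hK (k : ℕ) (q : ℝ) (x : Fin 5 → ℝ) : Fin 4 → ℝ :=
  fun i => Hm (1 / k) (mK k q x) i
/-- Support numbers of `L` on the box. -/
noncomputable def hL (k : ℕ) (q d : ℝ) (x : Fin 5 → ℝ) : Fin 4 → ℝ :=
  fun i => Hm (1 / k) (mL k q d x) i

/-- The five functions of the Miranda system. -/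
noncomputable def FF (k m : ℕ) (q d : ℝ) (x : Fin 5 → ℝ) : Fin 5 → ℝ :=
  ![lm k q d x * al k m AL (hL k q d x) 1 - (al k m AK (hK k q x) 0 + al k m AK (hK k q x) 1),
    lm k q d x * (al k m AL (hL k q d x) 2 + al k m AL (hL k q d x) 3) - al k m AK (hK k q x) 2,
    SS k m AL (hL k q d x) - SS k m AK (hK k q x) - (1 / (nn k m : ℝ)) * Real.log (lm k q d x),
    (1 - 2 * al k m AK (hK k q x) 0 * hK k q x 0)
      - lm k q d x * (1 - 2 * al k m AL (hL k q d x) 3 * hL k q d x 3),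
    -((al k m AK (hK k q x) 1 * hK k q x 1 - al k m AK (hK k q x) 0 * hK k q x 0)
      - lm k q d x * (al k m AL (hL k q d x) 1 * hL k q d x 1))]

/-- The limit functions of `FF` as `m -> infinity` (with block L notation):
`(1+q)(e^u1 - 1)`, `(beta - s)(e^u2 - 1)`, `v`, `LR`, `- LP`. -/
noncomputable def F0 (k : ℕ) (q d : ℝ) (x : Fin 5 → ℝ) : Fin 5 → ℝ :=
  ![(1 + q) * (Real.exp (pu q x 0) - 1),
    (beta (1 / k) (py x) - ss (1 / k) q (psg d x) (py x)) * (Real.exp (pu q x 1) - 1),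
    pu q x 2,
    LR (1 / k) q (psg d x) (py x) (pu q x 0) (pu q x 1) (pu q x 2),
    - LP (1 / k) q (psg d x) (py x) (pu q x 0) (pu q x 1) (pu q x 2)]

/-- SSC (conclusion of M1, hypothesis of M2): convergence of the normalised logarithmic volume. -/
def SscStmt : Prop := ∀ k : ℕ, 128 < k → ∀ A : Finset (Fin 4), (A = AK ∨ A = AL) →
  ∀ mu : Fin 4 → ℝ, PA A mu → ∀ (ι : Type) (F : Filter ι) (mm : ι → ℕ) (hi : ι → Fin 4 → ℝ),
    Tendsto mm F atTop → (∀ i ∈ A, Tendsto (fun x => hi x i) F (𝓝 (Hm (1 / k) mu i))) →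
    Tendsto (fun x => SS k (mm x) A (hi x)) F (𝓝 (1 + Ph (1 / k) mu))

end Pool.Agent.PVD.M
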