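import Pool.Agent.PVD.Defs
import Pool.Agent.PV3.Stmts

/-!
Squad PVD, BLOCK G (geometry): from `FINStmt` (equations for the derivatives of the volume of the
chamber polytopes) to `NEGStmt` (two different convex bodies with the same projection data).
All rows are independent: a row takes the statements which it uses as hypotheses.
From squad PV3 (all proved): `PV3.ARStmt` (PV3.H40.ar_stmt), `PV3.ANStmt` (PV3.H11.an),
`PV3.DERStmt` (PV3.H27.der), `PV3.INNStmt` (PV3.H21.inn), `PV3.RELStmt` (PV3.H60.rel),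
`PV3.BDLStmt` (Helper21_PV3). Brunn-Minkowski: `BM64.bm_mul`.
-/

set_option autoImplicit false

open MeasureTheory Metric Set Filter Topology

namespace PVD

open PV PV3

/-! ### Definitions -/

/-- `φ` is a linear isometry of `n`-space onto the hyperplane of sum zero in `ℝ^(n+1)`. -/
structure Emb (n : ℕ) (φ : E n →ₗᵢ[ℝ] E (n + 1)) : Prop where
  sum : ∀ x, ∑ i, φ x i = 0
  surj : ∀ y : E (n + 1), ∑ i, y i = 0 → ∃ x, φ x = y

/-- The norm of the projection of the indicator of an `r`-set to the hyperplane of sum zero. -/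
noncomputable def nu (n r : ℕ) : ℝ := Real.sqrt ((r : ℝ) * ((n : ℝ) + 1 - r) / ((n : ℝ) + 1))

/-- The vector of `n`-space representing the functional `x ↦ ∑ i ∈ A, (φ x) i`. -/
noncomputable def nv {n : ℕ} (φ : E n →ₗᵢ[ℝ] E (n + 1)) (A : Finset (Fin (n + 1))) : E n :=
  ContinuousLinearMap.adjoint φ.toContinuousLinearMap
    (∑ i ∈ A, EuclideanSpace.single i (1 : ℝ))

/-- The unit normal of the set `A`. -/
noncomputable def wn {n : ℕ} (φ : E n →ₗᵢ[ℝ] E (n + 1)) (A : Finset (Fin (n + 1))) : E n :=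
  (nu n A.card)⁻¹ • nv φ A

/-- The polytope with the support numbers `H r`, `r ∈ R`. -/
def PP {n : ℕ} (φ : E n →ₗᵢ[ℝ] E (n + 1)) (R : Finset ℕ) (H : ℕ → ℝ) : Set (E n) :=
  {x | ∀ r ∈ R, ∀ A : Finset (Fin (n + 1)), A.card = r → ∑ i ∈ A, φ x i ≤ H r}

open Classical in
/-- The finite set of the unit normals. -/
noncomputable def UU {n : ℕ} (φ : E n →ₗᵢ[ℝ] E (n + 1)) (R : Finset ℕ) : Finset (E n) :=
  (Finset.univ.filter fun A : Finset (Fin (n + 1)) => A.card ∈ R).image (wn φ)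

open Classical in
/-- The support numbers as a function on the unit normals. -/
noncomputable def cH {n : ℕ} (φ : E n →ₗᵢ[ℝ] E (n + 1)) (R : Finset ℕ) (H : ℕ → ℝ) : E n → ℝ :=
  fun v => if h : ∃ A : Finset (Fin (n + 1)), A.card ∈ R ∧ wn φ A = v then
    H h.choose.card / nu n h.choose.card else 0

/-- Admissible sets of classes. -/
def RO (n : ℕ) (R : Finset ℕ) : Prop := R.Nonempty ∧ ∀ r ∈ R, 1 ≤ r ∧ r ≤ n

/-- The oblique prism `S + [0, t] q`. -/
def Sw {n : ℕ} (q : E n) (S : Set (E n)) (t : ℝ) : Set (E n) :=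
  {y | ∃ x ∈ S, ∃ s ∈ Icc (0 : ℝ) t, y = x + s • q}

/-! ### Part 1: the function W (chamber polytopes) -/

/-- WPS: `0 < W` (and the chamber polytope is compact), for positive support numbers.
PROOF. For `1 ≤ r, j ≤ n` one has `0 < kap n r j` (`min r j ≥ 1`, `max r j ≤ n`). Take `r ∈ R`:
`d ∈ Ch` implies `kap n r (j+1) * d j ≤ H r` for every `j` (all terms are nonnegative), so `Ch` is
bounded; it is closed (finite intersection of closed sets); so it is compact and of finite volume.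
For small `δ > 0` the cube `[0, δ]^n` is contained in `Ch` (`∑ kap ... * δ ≤ H r` for all
`r ∈ R`), its volume is `δ ^ n > 0`. -/
def WPSStmt : Prop := ∀ (n : ℕ) (R : Finset ℕ) (H : ℕ → ℝ), RO n R →
  IsCompact (Ch n R H) ∧ ((∀ r ∈ R, 0 < H r) → 0 < W n R H)

/-- WMO: monotonicity and homogeneity.
PROOF. `Ch n R H ⊆ Ch n R H'` if `H r ≤ H' r` on `R`; measures of compact sets (WPS) are finite,
so `toReal` is monotone. `Ch n R (t H) = t • Ch n R H` for `t > 0`, and
`Measure.addHaar_smul` gives `volume (t • S) = ofReal (|t ^ n|) * volume S`. -/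
def WMOStmt : Prop := ∀ (n : ℕ) (R : Finset ℕ) (H : ℕ → ℝ), RO n R →
  (∀ H' : ℕ → ℝ, (∀ r ∈ R, H r ≤ H' r) → W n R H ≤ W n R H') ∧
  (∀ t : ℝ, 0 < t → W n R (fun r => t * H r) = t ^ n * W n R H) ∧
  (∀ H' : ℕ → ℝ, (∀ r ∈ R, H r = H' r) → W n R H = W n R H')

/-- WCO: continuity of `W` at positive support numbers.
PROOF. For `ε ∈ (0,1)` eventually `(1-ε) H r ≤ Hm r ≤ (1+ε) H r` for all `r ∈ R` (finite set,
`H r > 0`); by WMO `(1-ε)^n W H ≤ W Hm ≤ (1+ε)^n W H`. Let `ε → 0`. -/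
def WCOStmt : Prop := ∀ (n : ℕ) (R : Finset ℕ) (H : ℕ → ℝ), RO n R → (∀ r ∈ R, 0 < H r) →
  ∀ (ι : Type) (F : Filter ι) (Hm : ι → ℕ → ℝ), (∀ r ∈ R, Tendsto (fun i => Hm i r) F (𝓝 (H r))) →
    Tendsto (fun i => W n R (Hm i)) F (𝓝 (W n R H))

/-- WLC: `W` is log-concave.
PROOF. If `x ∈ Ch n R H`, `y ∈ Ch n R H'` then `(1-l) x + l y ∈ Ch n R ((1-l) H + l H')` (the
constraints are linear). Apply `BM64.bm_mul` (μ = volume on `Fin n → ℝ`) with `0 < l < 1` and pass to
`toReal` (all volumes are finite by WPS; `ENNReal.toReal_mul`, `ENNReal.toReal_rpow`). -/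
def WLCStmt : Prop := ∀ (n : ℕ) (R : Finset ℕ) (H H' : ℕ → ℝ), RO n R → ∀ l : ℝ, 0 < l → l < 1 →
  W n R H ^ (1 - l) * W n R H' ^ l ≤ W n R (fun r => (1 - l) * H r + l * H' r)

/-- WDI: `W` has partial derivatives at positive support numbers. (Uses CHV, PHI, PLC, WLC, WPS,
PV3.DER, PV3.INN.)
PROOF. By CHV it is enough to consider `V t = vl (PP φ R (update H r t))`. Let `U = UU φ R`,
`c = cH φ R H`, `a = ∑_{A, card A = r} fa U c (wn φ A) / nu n r` (sum over the finset of all `A` of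
cardinality `r`). With `d (wn φ A) = 1 / nu n r` if `card A = r` and `d = 0` on the other normals
(PLC (4), injectivity in NRM) one has `Pl U (c + t d) = PP φ R (update H r (H r + t))`.
PV3.DER: `(V (H r + t) - V (H r)) / t → a` for `t → 0+`. PV3.INN: for `e > 0` eventually
`V (H r) - V (H r - t) ≤ t (a + e)`, `t → 0+`. By WLC and CHV `t ↦ log (V (H r + t))` is concave near
`0`, so `(log V (H r) - log V (H r - t)) / t ≥ lim_{s → 0+} (log V (H r + s) - log V (H r)) / s
= a / V (H r)`, hence `V (H r) - V (H r - t) ≥ V (H r) (1 - exp (- t a / V (H r))) ≥ t a - o(t)`.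
So the left derivative is also `a`. The result: `HasDerivAt V a (H r)`; divide by `κ`. -/
def WDIStmt : Prop := ∀ (n : ℕ) (R : Finset ℕ) (H : ℕ → ℝ), 2 ≤ n → RO n R → (∀ r ∈ R, 0 < H r) →
  ∀ r ∈ R, HasDerivAt (fun t : ℝ => W n R (Function.update H r t)) (dW n R H r) (H r)

/-- WSG: supergradient inequality, Euler relation, nonnegativity of the partial derivatives.
PROOF (uses WDI, WLC, WMO, WPS, CHV, PLC, PHI, PV3.DER; or purely from WDI, WLC, WMO). Euler:
differentiate `W n R (t H) = t ^ n W n R H` at `t = 1` (chain rule needs the joint derivative), or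
use PV3.REL: `∑ fa c = n vl` and FAE. Nonnegativity: `W` is monotone. Supergradient: for `d ≥ 0` on
`R`, PV3.DER gives for `V = vl (PP φ R ·)` that `(V (H + t d) - V H)/t → ∑_A fa (wn A) d_(card A)/nu
= ∑_{r ∈ R} V_r d_r` (`V_r = κ dW n R H r`, the case of one class gives `V_r`). Let `s > 0` be so
large that `d = H' - H + s H ≥ 0` on `R`. For small `t > 0`, with `t' = t/(1+ts)`,
`H + t d = (1 + ts) (H + t' (H' - H))`, so by homogeneity and log-concavity
`log V (H + t d) ≥ n log (1+ts) + (1-t') log V H + t' log V H'`; the derivative at `t = 0+` gives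
`∑ V_r d_r / V H ≥ n s + log V H' - log V H`, and `∑ V_r d_r = ∑ V_r (H' r - H r) + s n V H`. -/
def WSGStmt : Prop := ∀ (n : ℕ) (R : Finset ℕ) (H : ℕ → ℝ), 2 ≤ n → RO n R → (∀ r ∈ R, 0 < H r) →
  (∑ r ∈ R, dW n R H r * H r = n * W n R H) ∧ (∀ r ∈ R, 0 ≤ dW n R H r) ∧
  ∀ H' : ℕ → ℝ, (∀ r ∈ R, 0 < H' r) →
    Real.log (W n R H') ≤ Real.log (W n R H) +
      ∑ r ∈ R, dW n R H r * (H' r - H r) / W n R H

/-- WCD: the partial derivatives are continuous.
PROOF (uses WDI, WCO, WLC, WPS). Let `ψ_i (t) = log (W n R (update (Hm i) r t))` and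
`ψ (t) = log (W n R (update H r t))`: concave functions of `t` on `(0, ∞)` (WLC),
`ψ_i (t) → ψ (t)` for every `t > 0` and also `ψ_i (Hm i r + s) → ψ (H r + s)` for `s > - H r` (WCO).
For small `s > 0`, `(ψ_i (x_i + s) - ψ_i (x_i)) / s ≤ ψ_i' (x_i) ≤ (ψ_i (x_i) - ψ_i (x_i - s)) / s`
with `x_i = Hm i r`; in the limit `limsup ψ_i' (x_i) ≤ (ψ (x) - ψ (x - s)) / s` and
`liminf ≥ (ψ (x + s) - ψ (x)) / s`; `s → 0+` gives `ψ_i' (x_i) → ψ' (x)`. Finally
`dW = W * ψ'`. -/
def WCDStmt : Prop := ∀ (n : ℕ) (R : Finset ℕ) (H : ℕ → ℝ), 2 ≤ n → RO n R → (∀ r ∈ R, 0 < H r) →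
  ∀ (ι : Type) (F : Filter ι) (Hm : ι → ℕ → ℝ), (∀ r ∈ R, Tendsto (fun i => Hm i r) F (𝓝 (H r))) →
    ∀ r ∈ R, Tendsto (fun i => dW n R (Hm i) r) F (𝓝 (dW n R H r))

/-- WIN: a class whose constraint is implied, with room, by class `n` can be dropped.
PROOF. Let `R' = R.erase r`. For `d ∈ Ch n R' H'` (with `H'` near `H`)
`∑ kap n r (j+1) * d j ≤ κ * ∑ kap n n (j+1) * d j ≤ κ * H' n`, and `κ * H' n < H' r` if `H'` is near
`H` (also if only `H r` or one `H r'` is changed a little). So `Ch n R H' = Ch n R' H'`, hence the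
functions `t ↦ W n R (update H r' t)` and `t ↦ W n R' (update H r' t)` agree near `t = H r'`
(`Filter.EventuallyEq.deriv_eq`), and `t ↦ W n R (update H r t)` is constant near `H r`. -/
def WINStmt : Prop := ∀ (n : ℕ) (R : Finset ℕ) (H : ℕ → ℝ) (r : ℕ) (κ : ℝ), RO n R → r ∈ R →
  r ≠ n → n ∈ R → (∀ j, 1 ≤ j → j ≤ n → kap n r j ≤ κ * kap n n j) → κ * H n < H r → 0 ≤ κ →
  W n R H = W n (R.erase r) H ∧ dW n R H r = 0 ∧
    ∀ r' ∈ R.erase r, dW n R H r' = dW n (R.erase r) H r'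

/-- KAP: the two cases of WIN which are needed, positivity and the identity behind the chamber
coordinates.
PROOF. (1) `kap n 1 j = (n+1-j)/(n+1) ≤ n j/(n+1) = n * kap n n j` as `n + 1 ≤ (n+1) j`.
(2) for `r = n + 1 - k`: if `j ≤ r` then `kap n r j = j k/(n+1) = k * kap n n j`; if `j > r` then
`(n+1-k)(n+1-j) ≤ j k` because `j ≥ n+1-k` and `n+1-j ≤ k`. (3) clear. (4) for `y` with sum zero:
the coefficient of `y i` in `∑_j kap n r (j+1) (y j - y (j+1))` is `kap n r (i+1) - kap n r i`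
(with `kap n r 0 = kap n r (n+1) = 0`), which is `1 - r/(n+1)` for `i < r` and `- r/(n+1)` for
`i ≥ r` (here `i : Fin (n+1)` is counted from 0); use `∑ y = 0`. -/
def KAPStmt : Prop := ∀ n : ℕ, 1 ≤ n →
  (∀ j, 1 ≤ j → j ≤ n → kap n 1 j ≤ n * kap n n j) ∧
  (∀ k, 1 ≤ k → k ≤ n → ∀ j, 1 ≤ j → j ≤ n → kap n (n + 1 - k) j ≤ k * kap n n j) ∧
  (∀ r j, 1 ≤ r → r ≤ n → 1 ≤ j → j ≤ n → 0 < kap n r j) ∧
  (∀ (r : ℕ) (y : Fin (n + 1) → ℝ), 1 ≤ r → r ≤ n → ∑ i, y i = 0 →
    ∑ i : Fin (n + 1), (if i.1 < r then y i else 0) =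
      ∑ j : Fin n, kap n r (j.1 + 1) * (y j.castSucc - y j.succ))

/-! ### Part 2: the hyperplane of sum zero, normals and symmetries -/

/-- PHI: existence of the embedding.
PROOF. Let `F = (ℝ ∙ 1)ᗮ` in `E (n+1)` (`1` = the all one vector, nonzero): `finrank F = n`
(`Submodule.finrank_orthogonal_span_singleton`). `(stdOrthonormalBasis ℝ F).repr` is a linear
isometry of `F` onto `E (finrank F)`; reindex to `E n`; compose its inverse with `F.subtypeₗᵢ`.
`inner x 1 = ∑ x i` characterises `F`. -/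
def PHIStmt : Prop := ∀ n : ℕ, ∃ φ : E n →ₗᵢ[ℝ] E (n + 1), Emb n φ

/-- NRM: the normals.
PROOF. `inner x (nv φ A) = inner (φ x) (∑_{i ∈ A} single i 1) = ∑_{i ∈ A} φ x i` (adjoint). By `Emb`
there is `z` with `φ z = 1_A - (r/(n+1)) 1` (`r = card A`); `inner x z = inner (φ x) (φ z) =
∑_A φ x i`, so `nv φ A = z` and `‖nv φ A‖² = ‖φ z‖² = r - r²/(n+1) = (nu n r)²`, `nu n r > 0` for
`0 < r < n + 1`. So `‖wn φ A‖ = 1`. `nv φ A + nv φ Aᶜ` represents `x ↦ ∑ φ x i = 0`, so it is `0`,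
and `nu n r = nu n (n+1-r)`. Injectivity: `wn φ A = wn φ B` gives
`(1_A - r/(n+1)) / nu r = (1_B - s/(n+1)) / nu s` in `ℝ^(n+1)`: the entries on `A` are positive, off
`A` negative, so `A = B`. -/
def NRMStmt : Prop := ∀ (n : ℕ) (φ : E n →ₗᵢ[ℝ] E (n + 1)), Emb n φ →
  (∀ A : Finset (Fin (n + 1)), ∀ x, inner ℝ x (nv φ A) = ∑ i ∈ A, φ x i) ∧
  (∀ A : Finset (Fin (n + 1)), 0 < A.card → A.card < n + 1 → 0 < nu n A.card ∧ ‖wn φ A‖ = 1 ∧
    (∀ x, inner ℝ x (wn φ A) = (∑ i ∈ A, φ x i) / nu n A.card) ∧ wn φ Aᶜ = - wn φ A ∧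
    (∀ i, φ (nv φ A) i = (if i ∈ A then 1 else 0) - (A.card : ℝ) / ((n : ℝ) + 1)) ∧
    (∀ B : Finset (Fin (n + 1)), 0 < B.card → B.card < n + 1 → wn φ A = wn φ B → A = B)) ∧
  (∀ r : ℕ, r ≤ n + 1 → nu n (n + 1 - r) = nu n r)

/-- SYM: permutations of the coordinates act by isometries.
PROOF. `x ↦ φ⁻¹ (σ (φ x))` where `σ` permutes the coordinates of `E (n+1)`
(`LinearIsometryEquiv.piLpCongrLeft`), which preserves the hyperplane of sum zero = range of `φ`.
`T (wn φ A) = wn φ (σ A)` because both represent `x ↦ ∑_{i ∈ σ A} φ x i / nu` (NRM; inner product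
with `x = T y`). -/
def SYMStmt : Prop := ∀ (n : ℕ) (φ : E n →ₗᵢ[ℝ] E (n + 1)), Emb n φ →
  ∀ σ : Equiv.Perm (Fin (n + 1)), ∃ T : E n ≃ₗᵢ[ℝ] E n,
    (∀ x i, φ (T x) (σ i) = φ x i) ∧ ∀ A, T (wn φ A) = wn φ (A.map σ.toEmbedding)

/-- PLC: the polytope `PP φ R H` in the notation of squad PV3; it is a convex body.
PROOF (uses NRM, PV3.BDL or directly). By injectivity (NRM) `cH φ R H (wn φ A) = H (card A) / nu n
(card A)` for `card A ∈ R` (`choose_spec`), so `Pl (UU φ R) (cH φ R H) = PP φ R H` (NRM, `nu > 0`).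
`Bd`: it is enough (PV3.BDL, or directly) to bound one nonempty polyhedron; directly: let
`∑_{i ∈ A} φ x i ≤ C` for all `A` of cardinality `r`, `1 ≤ r ≤ n`. For `i ≠ j` choose `A` with `i ∈ A`:
the average of `∑_A` over all `A ∋ i` of cardinality `r` is
`φ x i + ((r-1)/n) (- φ x i) = φ x i (n + 1 - r)/n`, so `φ x i ≤ C n/(n+1-r)` for every `i`; and
`φ x i = - ∑_{j ≠ i} φ x j ≥ - n * C n/(n+1-r)`. So `‖x‖ = ‖φ x‖` is bounded.
(`Bd` asks this for all `c`: with `C = max` of `c w * nu`.) For `H > 0` the point `0` is an interior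
point (finitely many strict inequalities), so `PP` is a convex body. `wn φ A ∈ UU` and
`- wn φ A = wn φ Aᶜ`. -/
def PLCStmt : Prop := ∀ (n : ℕ) (φ : E n →ₗᵢ[ℝ] E (n + 1)) (R : Finset ℕ), Emb n φ → RO n R →
  Un (UU φ R) ∧ Bd (UU φ R) ∧ ∀ H : ℕ → ℝ, Pl (UU φ R) (cH φ R H) = PP φ R H ∧
    (∀ A : Finset (Fin (n + 1)), A.card ∈ R → cH φ R H (wn φ A) = H A.card / nu n A.card) ∧
    ((∀ r ∈ R, 0 < H r) → Cb (PP φ R H))

/-- CHV: the volume of `PP φ R H` is a constant times `W n R H`.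
PROOF (uses KAP (4), SYM, PLC). Let `D : E n → (Fin n → ℝ)`, `(D x) j = φ x j - φ x (j+1)`: linear,
injective (`D x = 0` gives all coordinates of `φ x` equal, sum zero), so an equivalence; by
uniqueness of Haar measure there is `κ₀ > 0` (finite) with `volume (D ⁻¹' S) = κ₀ * volume S` for
all measurable `S`. Let `C = {x : φ x 0 ≥ φ x 1 ≥ ... ≥ φ x n} = D ⁻¹' {d ≥ 0}`. For `x ∈ C` and
`card A = r` one has `∑_{i ∈ A} φ x i ≤ ∑_{i < r} φ x i` (the first `r` are the largest), and this is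
`∑_j kap n r (j+1) (D x) j` by KAP (4): so `PP φ R H ∩ C = D ⁻¹' (Ch n R H)`. For a permutation `σ`
let `T_σ` be the isometry of SYM: `T_σ (PP) = PP` (the family of the sets `A` of cardinality `r` is
permuted), and `E n = ⋃_σ T_σ C`; `T_σ C ∩ T_τ C` for `σ ≠ τ` is contained in the null set
`⋃_{i ≠ j} {φ x i = φ x j}` (proper subspaces). So `volume (PP) = ∑_σ volume (T_σ (PP ∩ C)) =
(n+1)! κ₀ volume (Ch n R H)`. -/
def CHVStmt : Prop := ∀ (n : ℕ) (φ : E n →ₗᵢ[ℝ] E (n + 1)), 1 ≤ n → Emb n φ → ∃ κ : ℝ, 0 < κ ∧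
  ∀ (R : Finset ℕ) (H : ℕ → ℝ), RO n R → vl (PP φ R H) = κ * W n R H

/-- FAE: the area of a facet, all facets of one class have the same area.
PROOF (uses WDI (only as HasDerivAt), CHV, PLC, NRM, SYM, PV3.AR (for `ar`), PV3.DER). Let
`U = UU φ R`, `c = cH φ R H`. (1) If `card A = card B = r` take a permutation `σ` with `σ A = B` and
`T` of SYM: `T` maps `Pl U c` to itself (`c (T w) = c w`), `Fc U c (wn φ A)` onto
`Fc U c (wn φ B)`, and `ar (T w) (T '' S) = ar w S` (`Pr (T w) (T '' S) = T '' Pr w S`, isometries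
preserve volume). So the areas are equal. (2) By PV3.DER with `d (wn φ A) = 1/nu n r` for
`card A = r`, `0` otherwise, `(V (H r + t) - V (H r))/t → (number of A) * fa / nu n r`, where
`V t = vl (PP φ R (update H r t)) = κ W n R (update H r t)`, which tends to `κ * dW n R H r`. -/
def FAEStmt : Prop := ∀ (n : ℕ) (φ : E n →ₗᵢ[ℝ] E (n + 1)), 2 ≤ n → Emb n φ → ∃ κ : ℝ, 0 < κ ∧
  ∀ (R : Finset ℕ) (H : ℕ → ℝ), RO n R → (∀ r ∈ R, 0 < H r) →
    ∀ A : Finset (Fin (n + 1)), A.card ∈ R →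
      fa (UU φ R) (cH φ R H) (wn φ A) =
        κ * nu n A.card * dW n R H A.card / ((n + 1).choose A.card : ℝ)

/-- FXV: the vectors fixed by the stabiliser of `A` are the multiples of the normal.
PROOF (uses NRM, SYM). If `T_σ y = y` for all `σ` with `σ A = A`, then `φ y` is constant on `A` and
on the complement (transpositions), say `α` on `A` and `β` off `A`, with
`r α + (n+1-r) β = 0`: so `φ y = (α - β) (1_A - r/(n+1))= (α - β) φ (nv φ A)` (NRM),
`y = (α - β) nv φ A = (α - β) nu • wn φ A`. -/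
def FXVStmt : Prop := ∀ (n : ℕ) (φ : E n →ₗᵢ[ℝ] E (n + 1)), Emb n φ →
  ∀ A : Finset (Fin (n + 1)), 0 < A.card → A.card < n + 1 → ∀ y : E n,
    (∀ (σ : Equiv.Perm (Fin (n + 1))) (T : E n ≃ₗᵢ[ℝ] E n), (∀ x i, φ (T x) (σ i) = φ x i) →
      A.map σ.toEmbedding = A → T y = y) → ∃ a : ℝ, y = a • wn φ A

/-- MOM: the moment of the prism over a facet is a multiple of the normal.
PROOF (uses PLC, NRM, SYM, FXV). Let `w = wn φ A`, `F = Fc (UU φ R) (cH φ R H) w` (compact). For `σ`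
with `σ A = A` and `T = T_σ`: `T w = w`, `T '' F = F`, so `T '' (Sw w F 1) = Sw w F 1`, and
`T (∫_{Sw w F 1} y dy) = ∫_{Sw w F 1} T y dy = ∫_{T '' Sw w F 1} y dy = ∫_{Sw w F 1} y dy` (isometries
preserve volume). FXV. -/
def MOMStmt : Prop := ∀ (n : ℕ) (φ : E n →ₗᵢ[ℝ] E (n + 1)) (R : Finset ℕ) (H : ℕ → ℝ), Emb n φ →
  RO n R → ∀ A : Finset (Fin (n + 1)), A.card ∈ R → ∃ a : ℝ,
    ∫ y in Sw (wn φ A) (Fc (UU φ R) (cH φ R H) (wn φ A)) 1, y = a • wn φ A

/-! ### Part 3: projections of polytopes (general) -/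

/-- HSM: the Hausdorff measure of a projection is a constant times the volume of the prism of
height one over it, and the same for the integral of a continuous function of the projection.
PROOF. Let `u` be a unit vector, `F = uᗮ` (dimension `n - 1`, a real inner product space with its
volume), `j : F → E n` the inclusion, an isometry: `μH[n-1] (j '' S) = μH[n-1] S` in `F`
(`Isometry.hausdorffMeasure_image`), and `μH[n-1]` on `F` is an additive Haar measure
(`MeasureTheory.isAddHaarMeasure_hausdorffMeasure` for `finrank = n-1`), so a constant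
`γ_F ∈ (0, ∞)` times the volume of `F`; all `F` are isometric to `E (n-1)`, so the constant does not
depend on `u`. The map `F × ℝ → E n`, `(z, s) ↦ z + s u` preserves volume
(`F × ℝ` isometric to `E n` with the L2 norm: orthonormal basis of `F` and `u`), and
`Pr u K` is the image of `(proj u '' K) × [0,1]`. Fubini: `volume (Pr u K) = volume_F (proj u '' K)`,
`∫_{Pr u K} f (proj u y) dy = ∫_{proj u '' K} f`. -/
def HSMStmt : Prop := ∀ n : ℕ, 1 ≤ n → ∃ γ : ENNReal, γ ≠ 0 ∧ γ ≠ ⊤ ∧ ∀ u : E n, ‖u‖ = 1 →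
  ∀ K : Set (E n), IsCompact K →
    Measure.hausdorffMeasure ((n : ℝ) - 1) (proj u '' K) = γ * volume (Pr u K) ∧
    ∀ f : E n → ℝ, Continuous f →
      ∫ x in proj u '' K, f x ∂(Measure.hausdorffMeasure ((n : ℝ) - 1) : Measure (E n)) =
        γ.toReal * ∫ y in Pr u K, f (proj u y)

/-- SHR: change of variables for oblique prisms over a flat compact set.
PROOF. `T y = y + (inner y w - a) • (u - w)` maps `Sw w S 1` onto `Sw u S 1` (`x + s w ↦ x + s u` for
`inner x w = a`); its linear part is `1 + (u - w) ⊗ w` with determinant `1 + inner (u - w) w =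
inner u w` (rank one update of the identity), so
`∫_{Sw u S 1} f (proj u y) dy = (inner u w) ∫_{Sw w S 1} f (proj u (T y)) dy`, and for `y = x + s w`:
`T y = x + s u`, `proj u (T y) = proj u x`, `x = y - (inner y w - a) w`.
Next `Θ y = y + τ (proj u y) u` with the affine function
`τ z = (a - inner z w) / inner u w` maps `Pr u S` onto `Sw u S 1` (for `x ∈ S`:
`x = proj u x + (inner x u) u` and `inner x u = τ (proj u x)` as `inner x w = a`), has determinant `1`
(linear part `1 + u ⊗ l` with `l u = 0`) and `proj u (Θ y) = proj u y`: so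
`∫_{Pr u S} f (proj u y) dy = ∫_{Sw u S 1} f (proj u y) dy`. -/
def SHRStmt : Prop := ∀ (n : ℕ) (u w : E n) (a : ℝ) (S : Set (E n)), ‖u‖ = 1 → ‖w‖ = 1 →
  0 < inner ℝ u w → IsCompact S → (∀ x ∈ S, inner ℝ x w = a) → ∀ f : E n → ℝ, Continuous f →
    ∫ y in Pr u S, f (proj u y) =
      inner ℝ u w * ∫ y in Sw w S 1, f (proj u (y - (inner ℝ y w - a) • w))

/-- FLT: two special cases of SHR.
PROOF. `f = 1`: `∫_{Sw w S 1} 1 = vl (Sw w S 1) = ar w S` by PV3.AR (second part with `q = w`, `t = 1`).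
`f = inner · v`, `inner u v = 0`: `inner (proj u z) v = inner z v`, so the integrand is
`inner y v - (inner y w - a) inner w v`. If `∫_{Sw w S 1} y = λ w` then
`∫ inner y v = λ inner w v`, `∫ inner y w = λ`, so the integral is
`λ inner w v - (λ - a ar) inner w v = a * ar w S * inner w v`. (`∫ inner y v = inner (∫ y) v`,
integrability on bounded sets.) -/
def FLTStmt : Prop := ∀ (n : ℕ) (u w : E n) (a : ℝ) (S : Set (E n)), ‖u‖ = 1 → ‖w‖ = 1 →
  0 < inner ℝ u w → IsCompact S → (∀ x ∈ S, inner ℝ x w = a) →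
  (vl (Pr u S) = inner ℝ u w * ar w S) ∧
  ((∃ b : ℝ, ∫ y in Sw w S 1, y = b • w) → ∀ v : E n, inner ℝ u v = 0 →
    ∫ y in Pr u S, inner ℝ y v = inner ℝ u w * (a * ar w S * inner ℝ w v))

/-- CVR: the prism over the projection of a polytope is the union of the prisms over the projections
of the upper facets, and the overlaps are null sets.
PROOF. (1) For `x ∈ P = Pl U c` the set `{s : x + s u ∈ P}` is compact (P is bounded and closed); let
`x' = x + s u` with maximal `s`. Some constraint `w ∈ U` with `inner u w > 0` is active at `x'`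
(otherwise `x' + ε u ∈ P` for small `ε > 0`, because `U` is finite), so `x' ∈ Fc U c w` and
`proj u x' = proj u x`. (2) If `x ∈ Fc U c w`, `x' ∈ Fc U c w'` with `inner u w, inner u w' > 0` and
`proj u x = proj u x'`, then `x' = x + s u`; `inner x' w ≤ c w = inner x w` gives `s ≤ 0`, and by
symmetry `s ≥ 0`, so `x = x'`. Hence `Pr u (Fc w) ∩ Pr u (Fc w') = Pr u (Fc w ∩ Fc w')`, and
`vl (Pr u (Fc w ∩ Fc w')) = inner u w * ar w (Fc w ∩ Fc w') = 0` (FLT, PV3.AN first part:
`w' ≠ w`, and `w' ≠ -w` since both inner products with `u` are positive). -/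
def CVRStmt : Prop := ∀ (n : ℕ) (U : Finset (E n)) (c : E n → ℝ) (u : E n), Un U → Bd U → ‖u‖ = 1 →
  (Pr u (Pl U c) = ⋃ w ∈ {w | w ∈ U ∧ 0 < inner ℝ u w}, Pr u (Fc U c w)) ∧
  ∀ w ∈ U, ∀ w' ∈ U, w ≠ w' → 0 < inner ℝ u w → 0 < inner ℝ u w' →
    volume (Pr u (Fc U c w) ∩ Pr u (Fc U c w')) = 0

open Classical in
/-- PRF: projection volume and projection moment of a polytope.
PROOF (uses CVR, FLT, PV3.AR). Additivity of the integral over a finite union with null overlaps
(`MeasureTheory.integral_biUnion_finset` needs pairwise disjoint: use the ae-disjoint version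
`integral_finset_biUnion` / `integral_iUnion_ae`, or remove the null set), then FLT for every facet
(compact, `inner x w = c w`). For `-u` note `Pr (-u) K = Pr u K + (-u)` (translate) and
`proj (-u) = proj u`. -/
def PRFStmt : Prop := ∀ (n : ℕ) (U : Finset (E n)) (c : E n → ℝ) (u : E n), Un U → Bd U →
  ‖u‖ = 1 → (∀ w ∈ U, ∃ b : ℝ, ∫ y in Sw w (Fc U c w) 1, y = b • w) →
  (vl (Pr u (Pl U c)) = ∑ w ∈ U.filter (fun w => 0 < inner ℝ u w), inner ℝ u w * fa U c w) ∧
  (∀ v : E n, inner ℝ u v = 0 → ∫ y in Pr u (Pl U c), inner ℝ y v =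
    ∑ w ∈ U.filter (fun w => 0 < inner ℝ u w), inner ℝ u w * (c w * fa U c w * inner ℝ w v)) ∧
  (vl (Pr (-u) (Pl U c)) = vl (Pr u (Pl U c))) ∧
  (∀ v : E n, inner ℝ u v = 0 →
    ∫ y in Pr (-u) (Pl U c), inner ℝ y v = ∫ y in Pr u (Pl U c), inner ℝ y v)

/-- SMD: equal facet data give equal projection data.
PROOF (uses PRF, HSM). Let `u` be a unit vector. PRF for `u` and for `-u` and their equality give
`2 vl (Pr u P) = ∑_{w ∈ U} |inner u w| fa w`, and as `U = -U` this is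
`(1/2) ∑_{w ∈ U} |inner u w| (fa w + fa (-w))`: the same for `c` and `c'`. In the same way
`2 ∫_{Pr u P} inner y v = ∑_{w ∈ U} |inner u w| c w fa w inner w v =
(1/2) ∑_{w ∈ U} |inner u w| (c w fa w - c (-w) fa (-w)) inner w v` for `inner u v = 0`: the same. By
HSM the brightnesses agree (`volume (Pr u P)` is finite: `vl` determines it), and the vectors
`∫_{proj u '' P} x dμH` have the same inner product with every `v` orthogonal to `u`
(`inner (proj u y) v = inner y v`), and inner product `0` with `u` (all `x` in the domain are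
orthogonal to `u`), so they are equal (decompose `v = proj u v + (inner v u) u`). -/
def SMDStmt : Prop := ∀ (n : ℕ) (U : Finset (E n)) (c c' : E n → ℝ), 1 ≤ n → Un U → Bd U →
  (∀ w ∈ U, -w ∈ U) →
  (∀ w ∈ U, ∃ b : ℝ, ∫ y in Sw w (Fc U c w) 1, y = b • w) →
  (∀ w ∈ U, ∃ b : ℝ, ∫ y in Sw w (Fc U c' w) 1, y = b • w) →
  (∀ w ∈ U, fa U c w + fa U c (-w) = fa U c' w + fa U c' (-w)) →
  (∀ w ∈ U, fa U c w * c w - fa U c (-w) * c (-w) = fa U c' w * c' w - fa U c' (-w) * c' (-w)) →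
  SameData (Pl U c) (Pl U c')

/-- FEQ: equal polytopes have equal facet areas.
PROOF. If `c w = c' w` the faces are equal. If `c w < c' w`: `Fc U c' w` is empty (`Pl U c' = Pl U c`
lies in `inner x w ≤ c w`), so `fa U c' w = 0`. A point `x ∈ Fc U c w` is not an interior point
(`x + ε w ∉ Pl U c = Pl U c'`), so some constraint `w'` of `c'` is active at `x` with
`inner w w' > 0` (finite `U`), and `w' ≠ w` because the constraint `w` is not active for `c'`. So
`Fc U c w ⊆ ⋃_{w' ≠ w, inner w w' > 0} {x ∈ Fc U c w : inner x w' = c' w'}`, each of `ar w` zero by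
PV3.AN (`w' ≠ -w` as `inner w w' > 0`); finite union: `Pr w` of a union is the union, so `ar` is
subadditive. The case `c' w < c w` is symmetric. -/
def FEQStmt : Prop := ∀ (n : ℕ) (U : Finset (E n)) (c c' : E n → ℝ), Un U → Bd U →
  Pl U c = Pl U c' → ∀ w ∈ U, fa U c w = fa U c' w

/-- ASG: the assembly of block G.
PROOF (uses PHI, NRM, PLC, FAE, MOM, SMD, FEQ). Take `n, k, H, H'` of FIN, `R = R4 n k`
(`RO n R`, closed under `r ↦ n + 1 - r`, four different classes because `1 < k`, `2 k < n + 1`), `φ` of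
PHI, `K = PP φ R H`, `L = PP φ R H'`. For `w = wn φ A ∈ UU φ R`, `r = card A`: `-w = wn φ Aᶜ`,
`fa w = κ nu dW r / choose (n+1) r`, `c w = H r / nu`, `nu n (n+1-r) = nu n r`,
`choose (n+1) (n+1-r) = choose (n+1) r`: the hypotheses of SMD are the equations of FIN (for
`r ∈ {n, 1}` and `r ∈ {k, n+1-k}`). `K ≠ L` by FEQ: the areas of the class `1` are different since
`dW H 1 ≠ dW H' 1`. -/
def ASGStmt : Prop := FINStmt → NEGStmt

end PVD
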