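import Pool.Agent.PVD.StmtsM2

/-! MP_e25c73_gt, frozen negation S14126, BLOCK M, part 1 (helper76): THE LIMIT OF THE VOLUMES.

Exponential tilting: the volume of `{d ≥ 0 : ∑_j c_i(t_j) d_j ≤ h_i, i ∈ A}` in dimension `n` is
`n ^ (-n) exp (n (1 + Ph m + o(1)))` if `h → Hm e m`. Upper bound: the Laplace transform. Lower
bound: product of exponential laws and the inequality of Chebyshev. All rows are independent: a row
takes the statements which it uses as hypotheses. Block L facts: `LBasic.lean`. `AK`, `AL`, `PA`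
(positive exactly on `A`) are in `MDefs.lean`. The result is `SscStmt` of `MDefs.lean` (row SSC).
-/

set_option autoImplicit false

open MeasureTheory Filter Topology

namespace Pool.Agent.PVD.M

open Pool.Agent.PVD.L

/-! ### Abstract polytopes -/

/-- The positive orthant. -/
def Or (n : ℕ) : Set (Fin n → ℝ) := {d | ∀ j, 0 ≤ d j}

/-- The polytope of the constraints `∑ j, c i j * d j ≤ h i`, `i ∈ A`, in the orthant. -/
def Po {n : ℕ} (A : Finset (Fin 4)) (c : Fin 4 → Fin n → ℝ) (h : Fin 4 → ℝ) :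
    Set (Fin n → ℝ) :=
  {d | (∀ j, 0 ≤ d j) ∧ ∀ i ∈ A, ∑ j, c i j * d j ≤ h i}

/-- The combination of the constraints. -/
def fA {n : ℕ} (A : Finset (Fin 4)) (c : Fin 4 → Fin n → ℝ) (m : Fin 4 → ℝ) (j : Fin n) : ℝ :=
  ∑ i ∈ A, m i * c i j

/-- The nodes `t_j = (j + 1) / (n + 1)`, `0 ≤ j < n`. -/
noncomputable def nd (n : ℕ) (j : ℕ) : ℝ := ((j : ℝ) + 1) / ((n : ℝ) + 1)

/-- ONE. The one dimensional integrals.
PROOF. Substitute or use `integral_rpow_mul_exp_neg_mul_Ioi`, `Real.Gamma_nat_eq_factorial`: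
`∫_{x ≥ 0} x ^ k exp (- r x) = k! / r ^ (k + 1)` for `k = 0, 1, 2`, so the first is `1 / r`,
the second `1 / r ^ 2 - (1 / r) (1 / r) = 0`, the third
`2 / r ^ 3 - 2 (1 / r) (1 / r ^ 2) + (1 / r ^ 2) (1 / r) = 1 / r ^ 3`. -/
def OneStmt : Prop := ∀ r : ℝ, 0 < r →
  (Integrable (fun x : ℝ => (Set.Ici (0 : ℝ)).indicator (fun x => Real.exp (-(r * x))) x) ∧
    ∫ x : ℝ, (Set.Ici (0 : ℝ)).indicator (fun x => Real.exp (-(r * x))) x = r⁻¹) ∧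
  (Integrable (fun x : ℝ => (Set.Ici (0 : ℝ)).indicator
      (fun x => (x - r⁻¹) * Real.exp (-(r * x))) x) ∧
    ∫ x : ℝ, (Set.Ici (0 : ℝ)).indicator (fun x => (x - r⁻¹) * Real.exp (-(r * x))) x = 0) ∧
  (Integrable (fun x : ℝ => (Set.Ici (0 : ℝ)).indicator
      (fun x => (x - r⁻¹) ^ 2 * Real.exp (-(r * x))) x) ∧
    ∫ x : ℝ, (Set.Ici (0 : ℝ)).indicator (fun x => (x - r⁻¹) ^ 2 * Real.exp (-(r * x))) x =
      (r⁻¹) ^ 3)

/-- EXI. The product of exponentials over the orthant. (Uses ONE.)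
PROOF. On the orthant the integrand is the product over `j` of
`(Ici 0).indicator (exp (- θ_j x)) (d_j)`, and outside this product is `0`:
`setIntegral = integral of the indicator` (`integral_indicator`; the orthant is measurable:
`measurableSet_le`, finite intersection, or it is closed), `Integrable.fintype_prod`,
`integral_fintype_prod_volume_eq_prod` (exact names as in Mathlib), ONE. -/
def ExiStmt : Prop := ∀ (n : ℕ) (th : Fin n → ℝ), (∀ j, 0 < th j) →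
  IntegrableOn (fun d : Fin n → ℝ => Real.exp (-∑ j, th j * d j)) (Or n) ∧
  ∫ d in Or n, Real.exp (-∑ j, th j * d j) = ∏ j, (th j)⁻¹

/-- VAR. The second moment. (Uses ONE.)
PROOF. `(∑ a_j x_j) ^ 2 = ∑_j ∑_l a_j a_l x_j x_l`, `x_j = d_j - 1 / θ_j`. Each term times the
exponential times the indicator of the orthant is a product over the places: the factor at `i` is
`(Ici 0).indicator` of `w_i(x) exp (- θ_i x)`, with `w_i = 1` if `i ≠ j, l`, `w_i = x - 1 / θ_i` if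
`i` is exactly one of `j ≠ l`, `w_i = (x - 1 / θ_i) ^ 2` if `i = j = l`. By ONE all factors are
integrable, the terms with `j ≠ l` have integral `0` (`Finset.prod_eq_zero`), the term `j = l` has
the integral `a_j ^ 2 (1 / θ_j ^ 3) ∏_{i ≠ j} 1 / θ_i = a_j ^ 2 / θ_j ^ 2 ∏_i 1 / θ_i`. -/
def VarStmt : Prop := ∀ (n : ℕ) (th a : Fin n → ℝ), (∀ j, 0 < th j) →
  IntegrableOn (fun d : Fin n → ℝ =>
    (∑ j, a j * (d j - (th j)⁻¹)) ^ 2 * Real.exp (-∑ j, th j * d j)) (Or n) ∧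
  ∫ d in Or n, (∑ j, a j * (d j - (th j)⁻¹)) ^ 2 * Real.exp (-∑ j, th j * d j) =
    (∑ j, a j ^ 2 / th j ^ 2) * ∏ j, (th j)⁻¹

/-- CHB. Chebyshev. (Uses EXI, VAR.)
PROOF. On the set of integration `s ^ 2 exp ≤ (..) ^ 2 exp`, and the right side is nonnegative on
the orthant: `s ^ 2 * (left) ≤ integral of VAR` (`setIntegral_mono_on` and
`setIntegral_mono_set`). The set `{s < |∑ ..|} ∩ Or n` is measurable (open ∩ closed). -/
def ChbStmt : Prop := ∀ (n : ℕ) (th a : Fin n → ℝ) (s : ℝ), (∀ j, 0 < th j) → 0 < s →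
  ∫ d in Or n ∩ {d | s < |∑ j, a j * (d j - (th j)⁻¹)|}, Real.exp (-∑ j, th j * d j) ≤
    (∑ j, a j ^ 2 / th j ^ 2) / s ^ 2 * ∏ j, (th j)⁻¹

/-- UBA. Upper bound. (Uses EXI.)
PROOF. `θ_j = r f_j`, `f_j = fA A c m j`. On `Po A c h`: `∑ θ_j d_j = r ∑_{i ∈ A} m_i ∑_j c_ij d_j ≤
r ∑_{i ∈ A} m_i h_i` (exchange of sums, `m_i ≥ 0`), so `1 ≤ exp (r ∑ m_i h_i) exp (- ∑ θ_j d_j)`.
`volume (Po) = ∫⁻ 1 ≤ ∫⁻ over Po ⊆ Or of ofReal (exp (r ∑ m_i h_i) exp (- ∑ θ_j d_j))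
≤ ofReal (exp (r ∑ m_i h_i) ∏ 1 / θ_j)` (EXI, `ofReal_integral_eq_lintegral_ofReal`). -/
def UbaStmt : Prop := ∀ (n : ℕ) (A : Finset (Fin 4)) (c : Fin 4 → Fin n → ℝ) (h m : Fin 4 → ℝ)
  (r : ℝ), 0 < r → (∀ i ∈ A, 0 ≤ m i) → (∀ j, 0 < fA A c m j) →
  volume (Po A c h) ≤
    ENNReal.ofReal (Real.exp (r * ∑ i ∈ A, m i * h i) * ∏ j, (r * fA A c m j)⁻¹)

/-- LBA. Lower bound by tilting. (Uses EXI, CHB, UBA.)
PROOF. `θ_j = n f_j`, `f_j = fA A c m j`, `P = ∏ 1 / θ_j`, `E(S) = ∫_{Or ∩ S} exp (- ∑ θ_j d_j)`,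
so `E(everything) = P` (EXI). For `i ∈ A`, `L_i(d) = ∑_j c_ij d_j`,
`L_i(d) - (1 / n) ∑_j c_ij / f_j = ∑_j c_ij (d_j - 1 / θ_j)`; CHB with `a = c_i`, `s = δ`:
`∑ c_ij² / θ_j² ≤ n (B / n)² = B² / n`, so the set where `L_i - (..) > δ` has `E ≤ P B² / (n δ²)`.
`T(d) = ∑ θ_j d_j`, `T - n = ∑ θ_j (d_j - 1 / θ_j)`; CHB with `a = θ`, `s = n δ`: the set where
`T < n (1 - δ)` has `E ≤ P n / (n δ)² = P / (n δ²)`. So the good set `Gd` (all `L_i ≤ (..) + δ`,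
`i ∈ A`, and `T ≥ n (1 - δ)`) has `E(Gd) ≥ P (1 - (|A| B² + 1) / (n δ²)) ≥ P / 2`. `Gd ∩ Or ⊆ Po A c
(.. + δ)` and on it `1 ≥ exp (n (1 - δ)) exp (- T)`, so the volume is at least
`exp (n (1 - δ)) E(Gd)`. (The volume is finite by UBA with `r = n`.) -/
def LbaStmt : Prop := ∀ (n : ℕ) (A : Finset (Fin 4)) (c : Fin 4 → Fin n → ℝ) (m : Fin 4 → ℝ)
  (B δ : ℝ), 0 < n → 0 < δ → δ < 1 → 0 ≤ B → (∀ i ∈ A, 0 < m i) → (∀ i ∈ A, ∀ j, 0 ≤ c i j) →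
  (∀ i ∈ A, ∀ j, c i j ≤ B * fA A c m j) → (∀ j, 0 < fA A c m j) →
  2 * ((A.card : ℝ) * B ^ 2 + 1) ≤ n * δ ^ 2 →
  1 / 2 * (Real.exp (n * (1 - δ)) * ∏ j, ((n : ℝ) * fA A c m j)⁻¹) ≤
    (volume (Po A c fun i => (n : ℝ)⁻¹ * (∑ j, c i j / fA A c m j) + δ)).toReal

/-! ### Riemann sums -/

/-- RSG. Riemann sums of a continuous function.
PROOF. Uniform continuity of `g` on `[0,1]`: for `ε > 0` there is `N` with `|g x - g y| ≤ ε` if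
`|x - y| ≤ 1 / (N + 1)`, `x, y ∈ [0,1]`. For `n ≥ N`, on the cell `[j / (n+1), (j+1) / (n+1)]` the
integral of `g` differs from `g (nd n j) / (n + 1)` by at most `ε / (n + 1)`; sum over `j ≤ n`
(`intervalIntegral.sum_integral_adjacent_intervals`): `|∫ g - (1 / (n+1)) ∑_{j ≤ n} g (nd n j)| ≤ ε`.
The term `j = n` is `g 1 / (n + 1) → 0`, and `(n + 1) / n → 1`. -/
def RsgStmt : Prop := ∀ g : ℝ → ℝ, ContinuousOn g (Set.Icc 0 1) →
  Tendsto (fun n : ℕ => (n : ℝ)⁻¹ * ∑ j ∈ Finset.range n, g (nd n j)) atTop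
    (𝓝 (∫ t in (0:ℝ)..1, g t))

/-- RLG. PROOF. `∑_{j < n} log ((j+1)/(n+1)) = log n! - n log (n+1)`. `log` is monotone, so
`∫_1^n log ≤ ∑_{j=1}^n log j ≤ ∫_1^(n+1) log`, that is
`n log n - n + 1 ≤ log n! ≤ (n+1) log (n+1) - n`. Divide by `n`: the lower bound gives
`≥ log (n / (n+1)) - 1 + 1/n → -1`, the upper one `≤ log (n+1) / n - 1 → -1`. (Or Stirling's
formula of Mathlib.) -/
def RlgStmt : Prop := Tendsto (fun n : ℕ => (n : ℝ)⁻¹ * ∑ j ∈ Finset.range n, Real.log (nd n j))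
  atTop (𝓝 (-1))

/-! ### The class functions -/

/-- `cl e i t / t`, extended to `t ≤ 0` (for `i = 1, 2, 3`). -/
noncomputable def bl (e : ℝ) (i : Fin 4) (t : ℝ) : ℝ :=
  ![0, 1, e / max t e - e, (1 - e) / max t (1 - e) - (1 - e)] i

/-- BLF. Elementary facts on `bl` and `fm`.
PROOF. `bl` is continuous because `max t e ≥ e > 0`. For `t > 0`, `t (e / max t e) = min t e`
(cases `t ≤ e`, `t ≥ e`). On `[0,1]`, `max t e ≤ 1` gives `bl ≥ 0`, and `bl e 1 = 1 > 0`, so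
`∑ m_i bl_i ≥ m_1 > 0`. For AK: `f ≥ m_0 (1-t) + m_1 t > 0` on `[0,1]`. `cl ≥ 0` (LBasic), so
`m_i cl_i ≤ f` on `[0,1]`; and `fA = fm` because `m` vanishes outside `A`. -/
def BlfStmt : Prop := ∀ e : ℝ, 0 < e → e < 1 / 2 → ∀ m : Fin 4 → ℝ,
  (∀ i, Continuous (bl e i)) ∧
  (∀ i : Fin 4, i ≠ 0 → ∀ t : ℝ, 0 < t → cl e i t = t * bl e i t) ∧
  (PA AL m → ∀ t : ℝ, 0 ≤ t → t ≤ 1 → 0 < ∑ i, m i * bl e i t) ∧
  (PA AL m → ∀ t : ℝ, 0 < t → fm e m t = t * ∑ i, m i * bl e i t) ∧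
  (PA AK m → ∀ t : ℝ, 0 ≤ t → t ≤ 1 → 0 < fm e m t) ∧
  (PA AL m → ∀ t : ℝ, 0 < t → t ≤ 1 → 0 < fm e m t) ∧
  (∀ A : Finset (Fin 4), PA A m → ∀ t : ℝ, ∑ i ∈ A, m i * cl e i t = fm e m t) ∧
  (∀ A : Finset (Fin 4), PA A m → ∀ i ∈ A, ∀ t : ℝ, 0 ≤ t → t ≤ 1 →
    cl e i t ≤ (m i)⁻¹ * fm e m t)

/-- RS1. (Uses RSG, BLF.)
PROOF. AK: `g t = cl e i t / fm e m t` is continuous on `[0,1]` (BLF): RSG. AL: for `t > 0` one has
`cl e i t / fm e m t = bl e i t / ∑ m_l bl_l t = g t`, `g` continuous on `[0,1]`, so the sums are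
those of `g` (all nodes are positive) and `Hm e m i = ∫ g` (equal for `t ∈ (0,1]`:
`intervalIntegral.integral_congr_ae` or `integral_congr_Ioo`): RSG. -/
def Rs1Stmt : Prop := ∀ e : ℝ, 0 < e → e < 1 / 2 → ∀ (A : Finset (Fin 4)) (m : Fin 4 → ℝ),
  (A = AK ∨ A = AL) → PA A m → ∀ i ∈ A,
  Tendsto (fun n : ℕ => (n : ℝ)⁻¹ * ∑ j ∈ Finset.range n, cl e i (nd n j) / fm e m (nd n j)) atTop
    (𝓝 (Hm e m i))

/-- RS2. (Uses RSG, RLG, BLF.)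
PROOF. AK: `log fm` is continuous on `[0,1]`: RSG. AL: `log fm t = log t + log F t` for `t > 0`,
`F = ∑ m_i bl_i` continuous and positive on `[0,1]`: RSG for `log F`, RLG, and
`∫_0^1 log fm = ∫_0^1 log t + ∫_0^1 log F = -1 + ∫_0^1 log F` (`integral_log`,
`intervalIntegral.intervalIntegrable_log'`). -/
def Rs2Stmt : Prop := ∀ e : ℝ, 0 < e → e < 1 / 2 → ∀ (A : Finset (Fin 4)) (m : Fin 4 → ℝ),
  (A = AK ∨ A = AL) → PA A m →
  Tendsto (fun n : ℕ => (n : ℝ)⁻¹ * ∑ j ∈ Finset.range n, Real.log (fm e m (nd n j))) atTop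
    (𝓝 (- Ph e m))

/-- RS3. (Uses BLF.)
PROOF. `cl / fm` is `0 ≤` and `≤ 1 / m_i` on `(0,1]` and measurable (quotient of continuous
functions), so it is integrable; `∑_{i ∈ A} m_i cl_i / fm = 1` on `(0,1]`. Positive: it is continuous
and positive on `(0,1)` (`cl e i t > 0` for `t ∈ (0,1)`). -/
def Rs3Stmt : Prop := ∀ e : ℝ, 0 < e → e < 1 / 2 → ∀ (A : Finset (Fin 4)) (m : Fin 4 → ℝ),
  (A = AK ∨ A = AL) → PA A m →
  ∑ i ∈ A, m i * Hm e m i = 1 ∧ ∀ i ∈ A, 0 < Hm e m i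

/-! ### The volumes of the bodies -/

/-- The volume of the polytope of the classes `A` in the normalisation of block L. -/
noncomputable def VA (n : ℕ) (e : ℝ) (A : Finset (Fin 4)) (h : Fin 4 → ℝ) : ℝ :=
  (volume (Po A (fun (i : Fin 4) (j : Fin n) => cl e i (nd n j)) h)).toReal

/-- The normalised logarithm of the volume. -/
noncomputable def SA (n : ℕ) (e : ℝ) (A : Finset (Fin 4)) (h : Fin 4 → ℝ) : ℝ :=
  (n : ℝ)⁻¹ * Real.log ((n : ℝ) ^ n * VA n e A h)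

/-- HOM. Homogeneity and monotonicity.
PROOF. `Po A c (s h) = s • Po A c h` (`s > 0`), `Measure.addHaar_smul`,
`Module.finrank ℝ (Fin n → ℝ) = n`. Monotone: `Po A c h ⊆ Po A c h'`, the larger one is bounded
if `A` is `AK` or `AL` (class `1` is in `A`: `nd n j * d j ≤ h 1`), so its volume is finite. -/
def HomStmt : Prop := ∀ (n : ℕ) (e : ℝ), 0 < e → e < 1 / 2 → ∀ (A : Finset (Fin 4)),
  (A = AK ∨ A = AL) → ∀ h : Fin 4 → ℝ,
  (∀ s : ℝ, 0 < s → VA n e A (fun i => s * h i) = s ^ n * VA n e A h) ∧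
  ∀ h' : Fin 4 → ℝ, (∀ i ∈ A, h i ≤ h' i) → VA n e A h ≤ VA n e A h'

/-- SUP. Upper bound of the normalised logarithm. (Uses UBA, BLF.)
PROOF. UBA with `r = n`, `c i j = cl e i (nd n j)`, `fA A c m j = fm e m (nd n j) > 0` (BLF, `nd` is in
`(0,1)`): `VA ≤ exp (n ∑ m_i h_i) ∏ 1 / (n f_j)`. Take logarithms (`VA > 0`):
`log (n^n VA) ≤ n ∑ m_i h_i - ∑ log f_j`. -/
def SupStmt : Prop := ∀ e : ℝ, 0 < e → e < 1 / 2 → ∀ (A : Finset (Fin 4)) (m : Fin 4 → ℝ),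
  (A = AK ∨ A = AL) → PA A m → ∀ (n : ℕ) (h : Fin 4 → ℝ), 0 < n → 0 < VA n e A h →
  SA n e A h ≤ ∑ i ∈ A, m i * h i -
    (n : ℝ)⁻¹ * ∑ j ∈ Finset.range n, Real.log (fm e m (nd n j))

/-- SLO. Lower bound of the normalised logarithm. (Uses LBA, HOM, BLF.)
PROOF. LBA with `c i j = cl e i (nd n j)`, `B = ∑_{i ∈ A} 1 / m_i` (BLF, last clause) and
`N ≥ 2 (|A| B^2 + 1) / δ^2`, `N ≥ 1`; HOM (monotone) for the passage to `h`; logarithms: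
`log (n^n VA) ≥ - log 2 + n (1 - δ) - ∑ log f_j`. -/
def SloStmt : Prop := ∀ e : ℝ, 0 < e → e < 1 / 2 → ∀ (A : Finset (Fin 4)) (m : Fin 4 → ℝ),
  (A = AK ∨ A = AL) → PA A m → ∀ δ : ℝ, 0 < δ → δ < 1 → ∃ N : ℕ, 0 < N ∧ ∀ n : ℕ, N ≤ n →
  ∀ h : Fin 4 → ℝ,
  (∀ i ∈ A, (n : ℝ)⁻¹ * (∑ j ∈ Finset.range n, cl e i (nd n j) / fm e m (nd n j)) + δ ≤ h i) →
  0 < VA n e A h ∧ 1 - δ - Real.log 2 / n -
    (n : ℝ)⁻¹ * ∑ j ∈ Finset.range n, Real.log (fm e m (nd n j)) ≤ SA n e A h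

/-- SSA. The limit of the normalised logarithm. (Uses SUP, SLO, HOM, RS1, RS2, RS3.)
PROOF. Upper bound: SUP, `∑_{i ∈ A} m_i h_i → ∑ m_i Hm_i = 1` (RS3), RS2: the right side tends to
`1 + Ph`. Lower bound: let `0 < δ < 1`, `ε > 0` with `2 δ ≤ ε Hm_i` for all `i ∈ A`. By RS1 and the
convergence of `h`, eventually `(1/n) ∑ cl/fm + δ ≤ Hm_i + 3 δ / 2` and `(1 + ε) h_i ≥ Hm_i + 3 δ/2`
(as `(1 + ε) Hm_i ≥ Hm_i + 2 δ`). SLO for `(1 + ε) h` and HOM: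
`SA h = SA ((1 + ε) h) - log (1 + ε) ≥ 1 - δ - log 2 / n - (1/n) ∑ log f_j - log (1 + ε)`, with the
limit `1 + Ph - δ - log (1 + ε)`. Here `δ`, `ε` are arbitrarily small. Positivity:
`VA ((1 + ε) h) = (1 + ε)^n VA h > 0`. -/
def SsaStmt : Prop := ∀ e : ℝ, 0 < e → e < 1 / 2 → ∀ (A : Finset (Fin 4)) (m : Fin 4 → ℝ),
  (A = AK ∨ A = AL) → PA A m → ∀ (ι : Type) (F : Filter ι) (N : ι → ℕ) (h : ι → Fin 4 → ℝ),
  Tendsto N F atTop → (∀ i ∈ A, Tendsto (fun x => h x i) F (𝓝 (Hm e m i))) →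
  (∀ᶠ x in F, 0 < VA (N x) e A (h x)) ∧
  Tendsto (fun x => SA (N x) e A (h x)) F (𝓝 (1 + Ph e m))

/-- DIC. The chamber polytope is `Po`. (Uses MB1, MB2.)
PROOF. Let `n = nn k m`, so `(n : ℝ) + 1 = k m` (MB1). `Ch n (CR k m A) (Hn k m h)`: the constraint of
`cm k m i` is `∑_j kap n (cm k m i) (j+1) d_j ≤ Hn (cm k m i)`, by MB2 and MB1
`sc_i ∑_j cl e i (t_j) d_j ≤ sc_i h_i`, `t_j = (j+1)/(k m) = nd n j`; divide by `sc_i > 0`. -/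
def DicStmt : Prop := ∀ k m : ℕ, 128 < k → 2 ≤ m → ∀ (A : Finset (Fin 4)) (h : Fin 4 → ℝ),
  _root_.PVD.Ch (nn k m) (CR k m A) (Hn k m h) =
    Po A (fun (i : Fin 4) (j : Fin (nn k m)) => cl (1 / k) i (nd (nn k m) j)) h

/-! SSC: theorem `ssc (h1 : DicStmt) (h2 : SsaStmt) : SscStmt` (`SscStmt` is in `MDefs.lean`). (Uses
DIC, SSA, MB1.) PROOF. By DIC `WW k m A h = VA (nn k m) (1/k) A h` and
`SS k m A h = SA (nn k m) (1/k) A h` for `m ≥ 2` (eventually, as `mm → ∞`);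
`nn k (mm x) = k mm(x) - 1 → ∞`; SSA with `e = 1 / k < 1 / 2`. -/

end Pool.Agent.PVD.M
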