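import Pool.Agent.PVD.MDefs

/-! MP_e25c73_gt, frozen negation S14126, BLOCK M2: convergence of the derivatives, Poincare-Miranda,
FINStmt (helper65). All rows are independent: a row takes the statements it uses as hypotheses.
Names: `e = 1/k`, `n = nn k m = k m - 1`, `M = k m = n + 1`, `t_j = (j+1)/M`. -/

set_option autoImplicit false
open MeasureTheory Filter Topology Set

namespace Pool.Agent.PVD.M

open Pool.Agent.PVD.L

/-- MB1. Combinatorics of the classes. PROOF. `k > 128`, `m >= 2`: `1 < m < n + 1 - m < n`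
(`n = k m - 1 >= 257`), so `cm` is injective; `Hn (cm i) = sc i * h i` by evaluating the `if`s.
`RO`: all classes lie in `[1, n]`. The last item: `Finset.sum_image` and injectivity.
(`PVD.R4 n m = {n, 1, m, n+1-m}`.) -/
def Mb1Stmt : Prop := ∀ k m : ℕ, 128 < k → 2 ≤ m →
  Function.Injective (cm k m) ∧ (nn k m : ℝ) + 1 = (k : ℝ) * m ∧ 2 < nn k m ∧ 2 * m < nn k m + 1 ∧
  (∀ A : Finset (Fin 4), A.Nonempty → _root_.PVD.RO (nn k m) (CR k m A)) ∧
  (∀ h : Fin 4 → ℝ, ∀ i, Hn k m h (cm k m i) = sc k m i * h i) ∧ (∀ i, 0 < sc k m i) ∧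
  CR k m Finset.univ = _root_.PVD.R4 (nn k m) m ∧
  (CR k m Finset.univ).erase (nn k m + 1 - m) = CR k m AK ∧
  (CR k m Finset.univ).erase 1 = CR k m AL ∧
  ∀ (A : Finset (Fin 4)) (g : ℕ → ℝ), ∑ r ∈ CR k m A, g r = ∑ i ∈ A, g (cm k m i)

/-- MB2. The coefficients are the class functions. PROOF. `M = n + 1 = k m`, `e M = m`, `r = cm i`,
`kap n r (j+1) = min r (j+1) * (M - max r (j+1)) / M`. `i = 0`: `(M - (j+1))/M = 1 - t`.
`i = 1`: `(j+1) * 1 / M = t` (`max n (j+1) = n` as `j < n`). `i = 2`: `M (min e t)(1 - max e t) =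
M (min t e - e t)` (two cases). `i = 3`: the same with `1 - e`. -/
def Mb2Stmt : Prop := ∀ k m : ℕ, 128 < k → 2 ≤ m → ∀ (i : Fin 4) (j : Fin (nn k m)),
  _root_.PVD.kap (nn k m) (cm k m i) (j.1 + 1) =
    sc k m i * cl (1 / k) i (((j.1 : ℝ) + 1) / ((k : ℝ) * m))

/-- MB3. Euler, nonnegativity and supergradient in the normalised form. (Uses MB1, PVD.WSG,
PVD.WPS.) PROOF. Divide WSG by `n W`. `SS h' - SS h = (1/n)(log W' - log W)` (`log` of a product,
`n^n > 0`, `W > 0` by WPS), `dW_r (H'_r - H_r)` with `H_(cm i) = sc i h_i`. -/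
def Mb3Stmt : Prop := ∀ k m : ℕ, 128 < k → 2 ≤ m → ∀ (A : Finset (Fin 4)) (h : Fin 4 → ℝ),
  A.Nonempty → (∀ i ∈ A, 0 < h i) →
  0 < WW k m A h ∧ (∑ i ∈ A, al k m A h i * h i = 1) ∧ (∀ i ∈ A, 0 ≤ al k m A h i) ∧
  ∀ h' : Fin 4 → ℝ, (∀ i ∈ A, 0 < h' i) →
    SS k m A h' ≤ SS k m A h + (∑ i ∈ A, al k m A h i * h' i) - 1

/-- DUA. Identification of the limit. PROOF (`e = 1/k < 1/128`). Let `nu = (mu + p)/2`: it satisfies
`PA A nu` (`mu > 0`, `p >= 0` on `A`, both `0` off `A`). `f_mu(t) > 0` on `(0,1]` and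
`c_i/f_mu <= 1/mu_i` for `i` in `A` (`f_mu >= mu_i c_i`), so all integrals below are integrals of
bounded functions. `x(t) := f_p(t)/f_mu(t) - 1 >= -1`, bounded. `f_nu = f_mu (1 + x/2)`,
`sum p_i H_i(nu) = int f_p/f_nu = int (1+x)/(1+x/2)`, `sum p_i H_i(mu) = int f_p/f_mu = 1`, so
`int x = 0`; `Ph nu - Ph mu = - int log (1 + x/2) >= - int x/2 = 0`. The hypothesis gives
`0 <= int ((1+x)/(1+x/2) - 1) = int (x/2)/(1+x/2) = int (x/2) (1/(1+x/2) - 1)
 = - int (x^2/4)/(1+x/2)`. So `x = 0` a.e.; `x` is continuous on `(0,1)`, hence `x = 0` there,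
`f_p = f_mu` on `[0,1]` by continuity. Evaluate at `0` (gives `p_0 = mu_0`), at `1` (`p_1 = mu_1`), at
`e` and `1 - e`: `c_2 = e(1-e), c_3 = e^2` resp. `c_2 = e^2, c_3 = e(1-e)`, determinant
`e^2 (1-2e) <> 0`. -/
def DuaStmt : Prop := ∀ k : ℕ, 128 < k → ∀ A : Finset (Fin 4), (A = AK ∨ A = AL) →
  ∀ mu p : Fin 4 → ℝ, PA A mu → (∀ i, 0 ≤ p i) → (∀ i ∉ A, p i = 0) →
    ∑ i, p i * Hm (1 / k) mu i = 1 →
    (∀ nu : Fin 4 → ℝ, PA A nu →
      Ph (1 / k) nu - Ph (1 / k) mu ≤ (∑ i, p i * Hm (1 / k) nu i) - 1) → p = mu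

/-- HPO. Positivity of the limit support numbers. PROOF. `f_mu > 0` on `(0,1]`, `c_i > 0` on
`(0,1)`, `c_i/f_mu <= 1/mu_i`: the integral of a bounded measurable function, positive on `(0,1)`. -/
def HpoStmt : Prop := ∀ k : ℕ, 128 < k → ∀ A : Finset (Fin 4), (A = AK ∨ A = AL) →
  ∀ mu : Fin 4 → ℝ, PA A mu → ∀ i ∈ A, 0 < Hm (1 / k) mu i

/-- ALC. Convergence of the normalised derivatives. (Uses MB3, DUA, HPO, SSC.) PROOF. Eventually
`mm >= 2` and `h_i >= Hm mu i / 2 > 0` on `A` (HPO). `0 <= al_i <= 1/h_i <= 2/Hm mu i` (MB3). By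
`tendsto_iff_ultrafilter` (or: every ultrafilter `U <= F`): the vector `al` (put `0` off `A`) is
eventually in a compact box, so it converges along `U` to some `p` with `p >= 0`, `p = 0` off `A`,
`sum p_i Hm mu i = 1` (limit of `sum al_i h_i = 1`). For `nu` with `PA A nu`, MB3 with
`h' = Hm nu` gives `SS(Hm nu) <= SS(h) + sum al_i Hm nu i - 1`; by SSC (for `nu`, constant `h'`, and
for `mu`, `h`) the limit is `1 + Ph nu <= 1 + Ph mu + sum p_i Hm nu i - 1`. DUA: `p = mu`. -/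
def AlcStmt : Prop := ∀ k : ℕ, 128 < k → ∀ A : Finset (Fin 4), (A = AK ∨ A = AL) →
  ∀ mu : Fin 4 → ℝ, PA A mu → ∀ (ι : Type) (F : Filter ι) (mm : ι → ℕ) (hi : ι → Fin 4 → ℝ),
    Tendsto mm F atTop → (∀ i ∈ A, Tendsto (fun x => hi x i) F (𝓝 (Hm (1 / k) mu i))) →
    ∀ i ∈ A, Tendsto (fun x => al k (mm x) A (hi x) i) F (𝓝 (mu i))

/-- PMC. The parameter maps on the cube. (Uses L.CNT, L.WCT, HPO.) PROOF. `|psg - 1| <= d`,
`1/64 <= py <= 1`, `|pu| <= q` on the cube. `beta` is continuous in `y`, `ww` by WCT, so `ss`,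
`muK`, `nuL` are continuous; `muK` takes values in `L.DK` (and `PA AK`), `nuL` in `L.DL`; `Ph` is
continuous on `DL` (which contains `muK`, `nuL`), so `lam = exp (v + Ph muK - Ph nuL)` is
continuous and positive, `muL = nuL / lam` is continuous with `PA AL`. `Hm` is continuous by CNT
(`i = 0` on `DK`, `i <> 0` on `DL`). Positivity: `s > 0`, `beta - s > 0` (`LimOK`), `beta_pos`. -/
def PmcStmt : Prop := ∀ (k : ℕ) (q d kap : ℝ), LimOK k q d kap →
  (∀ x ∈ Icc (0 : Fin 5 → ℝ) 1, PA AK (mK k q x) ∧ PA AL (mL k q d x) ∧ 0 < lm k q d x ∧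
    (∀ i ∈ AK, 0 < hK k q x i) ∧ (∀ i ∈ AL, 0 < hL k q d x i)) ∧
  (∀ i, ContinuousOn (fun x => mK k q x i) (Icc 0 1)) ∧
  (∀ i, ContinuousOn (fun x => mL k q d x i) (Icc 0 1)) ∧
  ContinuousOn (fun x => lm k q d x) (Icc 0 1) ∧
  (∀ i ∈ AK, ContinuousOn (fun x => hK k q x i) (Icc 0 1)) ∧
  (∀ i ∈ AL, ContinuousOn (fun x => hL k q d x i) (Icc 0 1))

/-- MCT. Continuity of the five functions for fixed `m`. (Uses MB1, MB3, PMC, PVD.WCO, PVD.WCD.)
PROOF. At a point `x` of the cube use WCO and WCD with the filter `nhdsWithin x (Icc 0 1)` and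
`Hm := fun y => Hn k m (hK k q y)` (resp. `hL`): on the classes of `CR k m AK` it equals
`sc i * hK y i` (MB1), which is continuous and positive. So `WW`, `dW`, `al`, `SS` (`W > 0`) are
continuous within the cube; `FF` is a polynomial in these, `lm`, `log lm` (`lm > 0`), `hK`, `hL`. -/
def MctStmt : Prop := ∀ (k : ℕ) (q d kap : ℝ), LimOK k q d kap → ∀ m : ℕ, 2 ≤ m →
  ∀ i : Fin 5, ContinuousOn (fun x => FF k m q d x i) (Icc 0 1)

/-- MLI. Limit of the five functions along every filter. (Uses ALC, SSC, PMC, L.LMU.) PROOF. Let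
`F` be a filter, `mm -> infinity`, `X -> x` within the cube. `h_i := hK (X) i -> hK x i = Hm (mK x) i`
(PMC), the same for `L`. ALC: `al AK -> mK x`, `al AL -> mL x`. SSC: `SS AK -> 1 + Ph (mK x)`,
`SS AL -> 1 + Ph (mL x)`. `(1/n) log lm -> 0` (`lm (X) -> lm x > 0`, `n -> infinity`). Then
component 0: `lam muL_1 - (q + 1) = (1+q)(e^u1 - 1)`; component 1: `lam (muL_2 + muL_3) - beta =
(beta - s) e^u2 + s - beta`; component 2: `Ph muL - Ph muK = v` (LMU); component 3: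
`(1 - 2 q Hm muK 0) - lam (1 - 2 muL_3 Hm muL 3)` and `Hm muL = lam Hm nuL` (LMU), so `LR`;
component 4: `- LP` in the same way. (`muL = nuL/lam`.) -/
def MliStmt : Prop := ∀ (k : ℕ) (q d kap : ℝ), LimOK k q d kap →
  ∀ (ι : Type) (F : Filter ι) (mm : ι → ℕ) (X : ι → Fin 5 → ℝ) (x : Fin 5 → ℝ),
    Tendsto mm F atTop → (∀ᶠ a in F, X a ∈ Icc (0 : Fin 5 → ℝ) 1) → Tendsto X F (𝓝 x) →
    x ∈ Icc (0 : Fin 5 → ℝ) 1 →
    (∀ i : Fin 5, Tendsto (fun a => FF k (mm a) q d (X a) i) F (𝓝 (F0 k q d x i))) ∧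
    Tendsto (fun a => al k (mm a) AK (hK k q (X a)) 0) F (𝓝 q)

/-- MSG. Signs of the limit functions on the faces. PROOF. From `LimOK` and the definitions
(`x i = 0`: `pu = - q`, resp. `psg = 1 - d`, `py = 1/64`; `x i = 1`: `pu = q`, `psg = 1 + d`, `py = 1`);
`e^u - 1 < 0` for `u < 0` and `> 0` for `u > 0`; `beta - s > 0`. -/
def MsgStmt : Prop := ∀ (k : ℕ) (q d kap : ℝ), LimOK k q d kap →
  ∀ x ∈ Icc (0 : Fin 5 → ℝ) 1, ∀ i : Fin 5,
    (x i = 0 → F0 k q d x i < 0) ∧ (x i = 1 → 0 < F0 k q d x i)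

/-- MEV. Signs of the five functions on the faces for large `m`. (Uses MLI, MSG.) PROOF.
Suppose not: for infinitely many `m` there is `X m` in the cube violating one of the finitely many
conditions; pass to one condition (pigeonhole: use an ultrafilter `U <= atTop` on `ℕ`), the cube is
compact, so `X` converges along `U` to some `x` in the cube, and `x i = 0` (resp. `1`) on the face
(closed condition). MLI along `U` (with `mm = id`): `FF (X m) i -> F0 x i < 0` (MSG), a contradiction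
to `FF > 0`; the same for the other faces and for `al ... 0 -> q > 0`.
(Or `IsCompact.eventually_forall_of_forall_eventually`-like arguments.) -/
def MevStmt : Prop := ∀ (k : ℕ) (q d kap : ℝ), LimOK k q d kap →
  ∃ m0 : ℕ, ∀ m : ℕ, m0 ≤ m → ∀ x ∈ Icc (0 : Fin 5 → ℝ) 1,
    (∀ i : Fin 5, (x i = 0 → FF k m q d x i ≤ 0) ∧ (x i = 1 → 0 ≤ FF k m q d x i)) ∧
    0 < al k m AK (hK k q x) 0

/-- MZR. A zero of the system gives FINStmt. (Uses MB1, MB3, PVD.WIN, PVD.KAP.) PROOF. `n = nn k m`,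
`H := Hn k m hK'` where `hK'` is `hK` with component 3 replaced by `hK 1 + 1` (so
`H (n+1-m) = k m (hK 1 + 1) > m * H n`, as `H n = hK 1`), `H' := Hn k m hL'`, `hL'` = `hL` with
component 0 replaced by `n * hL 1 + 1`. On the classes of `AK` (resp. `AL`) nothing changes, so
by WIN (`r = n + 1 - m`, factor `m`, KAP (2); `r = 1`, factor `n`, KAP (1)) and
`(CR univ).erase .. = CR AK`, `CR AL` (MB1): `dW n R4 H (cm i) = dW n (CR AK) (Hn hK) (cm i)` for `i`
in `AK`, `= 0` for `cm 3`; the same for `L`. (dW and W depend only on the support numbers of the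
classes of the finset: `Ch` is the same set; for `dW` the functions `t ↦ W (update ..)` agree, and
the values at the class itself agree.) From `FF = 0`: component 2: `log (WW_L/WW_K) = log lm`, so
`WW_L = lm * WW_K`. Component 0 times `n WW_K`: `dW'_n = dW_1 + dW_n`. Component 1 times
`n WW_K / M`: `dW'_m + dW'_(n+1-m) = dW_m`. Component 4: `dW_n H_n - dW_1 H_1 = dW'_n H'_n`.
Components 3 and 4 and `sum al_i h_i = 1` (MB3):
`al^K_2 hK_2 = lm (al^L_2 hL_2 - al^L_3 hL_3)`, times `n WW_K`: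
`dW_m H_m = dW'_m H'_m - dW'_(n+1-m) H'_(n+1-m)` (`sc 2 = sc 3 = M`). Last: `dW_1 > 0 = dW'_1`. -/
def MzrStmt : Prop := ∀ (k m : ℕ) (q d kap : ℝ), LimOK k q d kap → 2 ≤ m →
  ∀ x ∈ Icc (0 : Fin 5 → ℝ) 1, (∀ i ∈ AK, 0 < hK k q x i) → (∀ i ∈ AL, 0 < hL k q d x i) →
    0 < lm k q d x → 0 < al k m AK (hK k q x) 0 → (∀ i, FF k m q d x i = 0) →
    _root_.PVD.FINStmt

/-- MFN. Assembly of block M. (Uses L.LimStmt, PMC, MCT, MEV, MZR; `Helper53_TrInd.miranda`.) PROOF.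
`LimStmt` gives `k, q, d, kap` with `LimOK`. Take `m = max m0 2` of MEV. Poincare-Miranda for
`fun i x => FF k m q d x i` on `Icc 0 1` (continuity: MCT, `continuousOn_iff_continuous_restrict`
or `domRestrict`), so there is a zero `x`; PMC for the positivity; MZR. -/
def MfnStmt : Prop := LimStmt → _root_.PVD.FINStmt

end Pool.Agent.PVD.M
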